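import Pool.Agent.Lib_helper41.Weld.Surf

set_option autoImplicit false

namespace Pool.Agent.LibHelper41.Weld

open MeasureTheory Metric Set Filter Topology Complex
open scoped ContDiff ComplexConjugate Real BoundedContinuousFunction
open Pool.Agent.LibHelper41 Pool.Agent.LibHelper41.Remov

structure Sit where
  f : ℂ ≃ₜ ℂ
  K : Set ℂ
  G : Set ℂ
  χ : ℂ → ℝ
  W : Set ℂ
  hK : IsCompact K
  hG : IsOpen G
  hf : DifferentiableOn ℂ f (G \ K)
  smooth : ContDiff ℝ ∞ χ
  comp : HasCompactSupport χ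
  supp : tsupport χ ⊆ G
  hW : IsOpen W
  KW : K ⊆ W
  WG : W ⊆ G
  one : ∀ z ∈ W, χ z = 1

namespace Sit

variable (S : Sit)

/-- complex cutoff -/
noncomputable def X (z : ℂ) : ℂ := (S.χ z : ℂ)

theorem X_contDiff : ContDiff ℝ ∞ S.X := ofRealCLM.contDiff.comp S.smooth

theorem X_contDiff_one : ContDiff ℝ 1 S.X := S.X_contDiff.of_le (by exact_mod_cast le_top)

theorem X_tsupport : tsupport S.X ⊆ tsupport S.χ := by
  refine closure_minimal ?_ (isClosed_tsupport S.χ)
  intro z hz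
  refine subset_tsupport S.χ ?_
  intro hcon
  exact hz (by simp [X, hcon])

theorem X_compact : HasCompactSupport S.X :=
  S.comp.of_isClosed_subset (isClosed_tsupport _) S.X_tsupport

theorem X_one {z : ℂ} (hz : z ∈ S.W) : S.X z = 1 := by
  unfold X
  rw [S.one z hz, ofReal_one]

theorem X_zero {z : ℂ} (hz : z ∉ tsupport S.χ) : S.X z = 0 := by
  unfold X
  rw [image_eq_zero_of_notMem_tsupport hz, ofReal_zero]

/-- the support of the derivative of the cutoff -/
def Q : Set ℂ := tsupport (dbar S.X)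

theorem Q_sub_supp : S.Q ⊆ tsupport S.χ := tsupport_dbar_subset.trans S.X_tsupport

theorem Q_compact : IsCompact S.Q := (hasCompactSupport_dbar S.X_compact)

theorem om_zero_W {z : ℂ} (hz : z ∈ S.W) : dbar S.X z = 0 := by
  have : S.X =ᶠ[𝓝 z] fun _ => 1 := by
    filter_upwards [S.hW.mem_nhds hz] with x hx
    exact S.X_one hx
  rw [dbar_congr this, dbar_const]

theorem W_not_Q {z : ℂ} (hz : z ∈ S.W) : z ∉ S.Q := by
  unfold Q
  rw [notMem_tsupport_iff_eventuallyEq]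
  filter_upwards [S.hW.mem_nhds hz] with x hx
  exact S.om_zero_W hx

theorem Q_sub : S.Q ⊆ S.G \ S.K := fun _ hz =>
  ⟨S.supp (S.Q_sub_supp hz), fun hK => S.W_not_Q (S.KW hK) hz⟩

theorem A_open : IsOpen (S.G \ S.K) := S.hG.sdiff S.hK.isClosed

noncomputable def D : Dat where
  f := S.f
  A := S.G \ S.K
  Q := S.Q
  om := dbar S.X
  hA := S.A_open
  hfc := S.f.continuous
  hf := S.hf
  hinj := S.f.injective
  hQ := S.Q_compact
  hQA := S.Q_sub
  hom := continuous_dbar S.X_contDiff_one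
  homQ := fun _ hs => image_eq_zero_of_notMem_tsupport hs

variable (g : ℂ → ℂ) (φ : S.D.Q →ᵇ ℂ)

/-- the analytic extension of the solution -/
noncomputable def ph (z : ℂ) : ℂ := g z - Nop S.f (S.D.den φ) z

variable {g φ}

theorem ph_diff (hg : DifferentiableOn ℂ g (S.G \ S.K)) :
    DifferentiableOn ℂ (S.ph g φ) (S.G \ S.K) := hg.sub (S.D.N_diff φ)

theorem den_eq (hφ : ∀ z (hz : z ∈ S.Q), φ ⟨z, hz⟩ + Nop S.f (S.D.den φ) z = g z) {z : ℂ} :
    S.D.den φ z = dbar S.X z * S.ph g φ z := by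
  by_cases hz : z ∈ S.Q
  · have h1 : S.D.ext φ z = S.ph g φ z := by
      rw [S.D.ext_mem φ hz]
      unfold ph
      have := hφ z hz
      linear_combination this
    unfold Dat.den
    rw [h1]
    rfl
  · have h1 : dbar S.X z = 0 := image_eq_zero_of_notMem_tsupport hz
    rw [S.D.den_zero φ z hz, h1, zero_mul]

theorem den_contDiff (hg : DifferentiableOn ℂ g (S.G \ S.K))
    (hφ : ∀ z (hz : z ∈ S.Q), φ ⟨z, hz⟩ + Nop S.f (S.D.den φ) z = g z) :
    ContDiff ℝ 1 (S.D.den φ) := by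
  rw [contDiff_iff_contDiffAt]
  intro z
  by_cases hz : z ∈ S.G \ S.K
  · have h1 : ContDiffAt ℝ 1 (S.ph g φ) z :=
      (((S.ph_diff hg).contDiffOn (n := 1) S.A_open).restrict_scalars ℝ).contDiffAt
        (S.A_open.mem_nhds hz)
    have h2 : ContDiffAt ℝ 1 (dbar S.X) z :=
      ((contDiff_dbar_infty S.X_contDiff).of_le (by exact_mod_cast le_top)).contDiffAt
    have h3 : S.D.den φ = fun z => dbar S.X z * S.ph g φ z := by
      ext z
      exact S.den_eq hφ
    rw [h3]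
    exact h2.mul h1
  · have h1 : z ∉ S.Q := fun h => hz (S.Q_sub h)
    have h2 : S.D.den φ =ᶠ[𝓝 z] fun _ => 0 := by
      filter_upwards [(isClosed_tsupport _).isOpen_compl.mem_nhds h1] with x hx
      exact S.D.den_zero φ x hx
    exact contDiffAt_const.congr_of_eventuallyEq h2

theorem den_compact : HasCompactSupport (S.D.den φ) :=
  HasCompactSupport.intro S.Q_compact fun z hz => S.D.den_zero φ z hz

variable (g φ) in
/-- the outer function -/
noncomputable def H (z : ℂ) : ℂ := CT (S.D.den φ) z - S.X z * S.ph g φ z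

theorem H_diff (hg : DifferentiableOn ℂ g (S.G \ S.K))
    (hφ : ∀ z (hz : z ∈ S.Q), φ ⟨z, hz⟩ + Nop S.f (S.D.den φ) z = g z) :
    DifferentiableOn ℂ (S.H g φ) S.Kᶜ := by
  have hβ := S.den_contDiff hg hφ
  have hβc := S.den_compact (φ := φ)
  intro z hz
  refine DifferentiableAt.differentiableWithinAt ?_
  have hC : DifferentiableAt ℝ (CT (S.D.den φ)) z := CT_differentiableAt hβ hβc z
  by_cases hzG : z ∈ S.G
  · have hzA : z ∈ S.G \ S.K := ⟨hzG, hz⟩
    have h1 : DifferentiableAt ℂ (S.ph g φ) z := (S.ph_diff hg).differentiableAt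
      (S.A_open.mem_nhds hzA)
    have h2 : DifferentiableAt ℝ S.X z := S.X_contDiff_one.differentiable (by norm_num) z
    have hm : DifferentiableAt ℝ (fun z => S.X z * S.ph g φ z) z := h2.mul (h1.restrictScalars ℝ)
    refine complex_of_dbar (hC.sub hm) ?_
    have hd : dbar (S.H g φ) z = dbar (CT (S.D.den φ)) z - dbar (fun z => S.X z * S.ph g φ z) z :=
      dbar_sub hC hm
    change dbar (S.H g φ) z = 0
    rw [hd, dbar_mul h2 (h1.restrictScalars ℝ),
      dbar_CT hβ hβc, dbar_of_complex h1, S.den_eq hφ]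
    ring
  · have hzs : z ∉ tsupport S.χ := fun h => hzG (S.supp h)
    have h1 : S.H g φ =ᶠ[𝓝 z] CT (S.D.den φ) := by
      filter_upwards [(isClosed_tsupport _).isOpen_compl.mem_nhds hzs] with x hx
      unfold H
      rw [S.X_zero hx]
      ring
    have h2 : DifferentiableAt ℂ (CT (S.D.den φ)) z := by
      refine complex_of_dbar hC ?_
      rw [dbar_CT hβ hβc]
      exact S.D.den_zero φ z fun h => hzs (S.Q_sub_supp h)
    exact h2.congr_of_eventuallyEq h1

theorem split {z : ℂ} (hz : z ∉ S.Q) :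
    Nop S.f (S.D.den φ) z = Pot S.f (S.D.den φ) (S.f z) - CT (S.D.den φ) z :=
  Nop_split S.D.hA S.D.hfc S.D.hf S.D.hinj S.D.hQ S.D.hQA (S.D.den_integrable φ) (S.D.den_zero φ) hz

theorem H_W {z : ℂ} (hz : z ∈ S.W) : S.H g φ z = Pot S.f (S.D.den φ) (S.f z) - g z := by
  unfold H ph
  rw [S.X_one hz, S.split (S.W_not_Q hz)]
  ring

theorem CT_far (hβ : Continuous (S.D.den φ)) : ∃ c : ℂ, Tendsto (CT (S.D.den φ)) (cocompact ℂ) (𝓝 0) ∧
    Tendsto (fun z => z * CT (S.D.den φ) z) (cocompact ℂ) (𝓝 c) := by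
  have hβc := S.den_compact (φ := φ)
  obtain ⟨R, hR⟩ := S.Q_compact.isBounded.subset_closedBall 0
  obtain ⟨A, hA⟩ := hβc.exists_bound_of_continuous hβ
  obtain ⟨C, hC, hfar⟩ := exists_CT_far (|R| + 1) (by positivity)
  obtain ⟨-, hfar2⟩ := hfar (S.D.den φ) 0 A hβ (fun w hw => S.D.den_zero φ w fun h => hw (by
    have h1 := hR h
    rw [mem_closedBall] at h1 ⊢
    have := le_abs_self R
    linarith)) hA
  set c : ℂ := (π : ℂ)⁻¹ * ∫ w, S.D.den φ w with hc
  refine ⟨c, ?_, ?_⟩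
  · have h1 : Tendsto (fun z : ℂ => ‖c‖ / ‖z‖ + C * A / ‖z‖ ^ 2) (cocompact ℂ) (𝓝 0) := by
      have hn := tendsto_norm_cocompact_atTop (E := ℂ)
      have h2 : Tendsto (fun z : ℂ => ‖c‖ / ‖z‖) (cocompact ℂ) (𝓝 0) :=
        Tendsto.div_atTop tendsto_const_nhds hn
      have h3 : Tendsto (fun z : ℂ => C * A / ‖z‖ ^ 2) (cocompact ℂ) (𝓝 0) :=
        Tendsto.div_atTop tendsto_const_nhds ((tendsto_pow_atTop two_ne_zero).comp hn)
      simpa using h2.add h3
    refine squeeze_zero_norm' ?_ h1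
    filter_upwards [(tendsto_norm_cocompact_atTop (E := ℂ)).eventually_ge_atTop (2 * (|R| + 1))]
      with z hz
    have h2 := hfar2 z (by rwa [sub_zero])
    rw [sub_zero] at h2
    have h3 := norm_sub_norm_le (CT (S.D.den φ) z) (c * z⁻¹)
    have h4 : ‖c * z⁻¹‖ = ‖c‖ / ‖z‖ := by rw [norm_mul, norm_inv]; rfl
    linarith
  · have h1 : Tendsto (fun z : ℂ => C * A / ‖z‖) (cocompact ℂ) (𝓝 0) :=
      Tendsto.div_atTop tendsto_const_nhds (tendsto_norm_cocompact_atTop (E := ℂ))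
    rw [tendsto_iff_norm_sub_tendsto_zero]
    refine squeeze_zero' (Eventually.of_forall fun _ => norm_nonneg _) ?_ h1
    filter_upwards [(tendsto_norm_cocompact_atTop (E := ℂ)).eventually_ge_atTop (2 * (|R| + 1))]
      with z hz
    have h2 := hfar2 z (by rwa [sub_zero])
    rw [sub_zero] at h2
    have hz0 : 0 < ‖z‖ := by
      have := abs_nonneg R
      linarith
    have hzne : z ≠ 0 := norm_pos_iff.1 hz0
    have h3 : z * CT (S.D.den φ) z - c = z * (CT (S.D.den φ) z - c * z⁻¹) := by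
      field_simp
    rw [h3, norm_mul]
    calc ‖z‖ * ‖CT (S.D.den φ) z - c * z⁻¹‖ ≤ ‖z‖ * (C * A / ‖z‖ ^ 2) := by gcongr
      _ = C * A / ‖z‖ := by field_simp

theorem H_far_eq : S.H g φ =ᶠ[cocompact ℂ] CT (S.D.den φ) := by
  have h1 : ∀ᶠ z in cocompact ℂ, z ∈ (tsupport S.χ)ᶜ := S.comp.compl_mem_cocompact
  filter_upwards [h1] with z hz
  unfold H
  rw [S.X_zero hz]
  ring

theorem Pot_diff : DifferentiableOn ℂ (Pot S.f (S.D.den φ)) (S.f '' S.Q)ᶜ :=
  Pot_differentiableOn S.D.hA S.D.hfc S.D.hf S.D.hQ S.D.hQA (S.D.den_integrable φ) (S.D.den_zero φ)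

theorem Pot_analyticAt {z : ℂ} (hz : z ∉ S.Q) : AnalyticAt ℂ (Pot S.f (S.D.den φ)) (S.f z) := by
  have hop : IsOpen (S.f '' S.Q)ᶜ := (S.Q_compact.image S.f.continuous).isClosed.isOpen_compl
  refine (S.Pot_diff.analyticOnNhd hop) _ ?_
  rintro ⟨w, hw, he⟩
  exact hz (S.f.injective he ▸ hw)

theorem K_sub_supp : S.K ⊆ tsupport S.χ := by
  intro z hz
  refine subset_tsupport S.χ ?_
  rw [Function.mem_support, S.one z (S.KW hz)]
  exact one_ne_zero

theorem CT_analyticAt_W (hβ : ContDiff ℝ 1 (S.D.den φ)) {z : ℂ} (hz : z ∈ S.W) :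
    AnalyticAt ℂ (CT (S.D.den φ)) z := by
  have h1 : DifferentiableOn ℂ (CT (S.D.den φ)) S.W := by
    intro x hx
    refine DifferentiableAt.differentiableWithinAt ?_
    refine complex_of_dbar (CT_differentiableAt hβ S.den_compact x) ?_
    rw [dbar_CT hβ S.den_compact]
    exact S.D.den_zero φ x (S.W_not_Q hx)
  exact h1.analyticOnNhd S.hW z hz

theorem f_cocompact : Tendsto S.f (cocompact ℂ) (cocompact ℂ) :=
  S.f.isClosedEmbedding.tendsto_cocompact

/-- injectivity of `1 + N` -/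
theorem ker_zero (φ : S.D.Q →ᵇ ℂ) (h : φ + S.D.NE φ = 0) : φ = 0 := by
  have hφ : ∀ z (hz : z ∈ S.Q), φ ⟨z, hz⟩ + Nop S.f (S.D.den φ) z = (fun _ => (0 : ℂ)) z := by
    intro z hz
    have h1 := DFunLike.congr_fun h (⟨z, hz⟩ : S.D.Q)
    exact h1
  have hg : DifferentiableOn ℂ (fun _ : ℂ => (0 : ℂ)) (S.G \ S.K) := differentiableOn_const _
  have hβ := S.den_contDiff hg hφ
  obtain ⟨c, hCT, -⟩ := S.CT_far hβ.continuous
  have hKo : IsOpen S.Kᶜ := S.hK.isClosed.isOpen_compl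
  classical
  -- first function
  have hΘ1 : ∀ z, (if z ∈ S.K then Pot S.f (S.D.den φ) (S.f z) else S.H (fun _ => 0) φ z) = 0 := by
    refine liouville (Θ := fun z => if z ∈ S.K then Pot S.f (S.D.den φ) (S.f z) else
      S.H (fun _ => 0) φ z) ?_ ?_
    · intro z
      by_cases hz : z ∈ S.K
      · refine ⟨S.f, Pot S.f (S.D.den φ), S.Pot_analyticAt (S.W_not_Q (S.KW hz)), ?_⟩
        filter_upwards [S.hW.mem_nhds (S.KW hz)] with x hx
        split_ifs with h1
        · rfl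
        · rw [S.H_W hx, sub_zero]
      · refine Loc.of_analyticAt ?_
        have h1 : AnalyticAt ℂ (S.H (fun _ => 0) φ) z :=
          (S.H_diff hg hφ).analyticOnNhd hKo z hz
        refine h1.congr ?_
        filter_upwards [hKo.mem_nhds hz] with x hx
        rw [if_neg hx]
    · refine hCT.congr' ?_
      have h1 : ∀ᶠ z in cocompact ℂ, z ∈ S.Kᶜ := S.hK.compl_mem_cocompact
      filter_upwards [h1, S.H_far_eq (g := fun _ => 0) (φ := φ)] with z hz1 hz2
      rw [if_neg hz1, hz2]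
  have hH : ∀ z, z ∉ S.K → S.H (fun _ => 0) φ z = 0 := by
    intro z hz
    have := hΘ1 z
    rwa [if_neg hz] at this
  have hCTX : ∀ z, z ∉ S.K → CT (S.D.den φ) z = S.X z * S.ph (fun _ => 0) φ z := by
    intro z hz
    have := hH z hz
    unfold H at this
    exact sub_eq_zero.1 this
  have hout : ∀ x, x ∉ tsupport S.χ → S.ph (fun _ => 0) φ x = -Pot S.f (S.D.den φ) (S.f x) := by
    intro x hx
    have h1 := hCTX x fun h => hx (S.K_sub_supp h)
    rw [S.X_zero hx, zero_mul] at h1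
    unfold ph
    rw [S.split fun h => hx (S.Q_sub_supp h), h1]
    ring
  -- second function
  have hΘ2 : ∀ z, (if z ∈ S.G then CT (S.D.den φ) z + (1 - S.X z) * S.ph (fun _ => 0) φ z
      else -Pot S.f (S.D.den φ) (S.f z)) = 0 := by
    have hfar : ∀ x, x ∉ tsupport S.χ → (if x ∈ S.G then CT (S.D.den φ) x +
        (1 - S.X x) * S.ph (fun _ => 0) φ x else -Pot S.f (S.D.den φ) (S.f x)) =
        -Pot S.f (S.D.den φ) (S.f x) := by
      intro x hx
      split_ifs with h1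
      · rw [hCTX x fun h => hx (S.K_sub_supp h), S.X_zero hx, hout x hx]
        ring
      · rfl
    refine liouville (Θ := fun z => if z ∈ S.G then CT (S.D.den φ) z +
      (1 - S.X z) * S.ph (fun _ => 0) φ z else -Pot S.f (S.D.den φ) (S.f z)) ?_ ?_
    · intro z
      by_cases hzG : z ∈ S.G
      · refine Loc.of_analyticAt ?_
        by_cases hz : z ∈ S.K
        · refine (S.CT_analyticAt_W hβ (S.KW hz)).congr ?_
          filter_upwards [S.hW.mem_nhds (S.KW hz)] with x hx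
          rw [if_pos (S.WG hx), S.X_one hx]
          ring
        · have h1 : AnalyticAt ℂ (S.ph (fun _ => 0) φ) z :=
            (S.ph_diff hg).analyticOnNhd S.A_open z ⟨hzG, hz⟩
          refine h1.congr ?_
          filter_upwards [S.A_open.mem_nhds ⟨hzG, hz⟩] with x hx
          rw [if_pos hx.1, hCTX x hx.2]
          ring
      · have hzs : z ∉ tsupport S.χ := fun h => hzG (S.supp h)
        refine ⟨S.f, fun w => -Pot S.f (S.D.den φ) w,
          (S.Pot_analyticAt fun h => hzs (S.Q_sub_supp h)).neg, ?_⟩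
        filter_upwards [(isClosed_tsupport _).isOpen_compl.mem_nhds hzs] with x hx
        exact hfar x hx
    · have h1 : Tendsto (fun x => -Pot S.f (S.D.den φ) (S.f x)) (cocompact ℂ) (𝓝 0) := by
        have := ((Pot_tendsto S.D.hA S.D.hfc S.D.hf S.D.hQ S.D.hQA (S.D.den_integrable φ)
          (S.D.den_zero φ)).comp S.f_cocompact).neg
        rw [neg_zero] at this
        exact this
      refine h1.congr' ?_
      have h2 : ∀ᶠ z in cocompact ℂ, z ∈ (tsupport S.χ)ᶜ := S.comp.compl_mem_cocompact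
      filter_upwards [h2] with x hx
      exact (hfar x hx).symm
  ext ⟨z, hz⟩
  have hzA := S.Q_sub hz
  have h1 := hΘ2 z
  rw [if_pos hzA.1, hCTX z hzA.2] at h1
  have h2 : S.ph (fun _ => 0) φ z = 0 := by linear_combination h1
  have h3 := hφ z hz
  unfold ph at h2
  simp only [zero_sub, neg_eq_zero] at h2
  rw [h2, add_zero] at h3
  exact h3

theorem solve {g : ℂ → ℂ} (hg : DifferentiableOn ℂ g (S.G \ S.K)) :
    ∃ φ : S.D.Q →ᵇ ℂ, ∀ z (hz : z ∈ S.Q), φ ⟨z, hz⟩ + Nop S.f (S.D.den φ) z = g z := by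
  obtain ⟨φ, hφ⟩ := S.D.fredholm S.ker_zero (BoundedContinuousFunction.mkOfCompact
    ⟨fun q : S.D.Q => g q, hg.continuousOn.comp_continuous continuous_subtype_val
      fun q => S.Q_sub q.2⟩)
  refine ⟨φ, fun z hz => ?_⟩
  have h1 := DFunLike.congr_fun hφ (⟨z, hz⟩ : S.D.Q)
  exact h1

end Sit

/-- First Cousin problem on the sphere glued by `f`. -/
theorem cousin (f : ℂ ≃ₜ ℂ) {K G : Set ℂ} (hK : IsCompact K) (hG : IsOpen G) (hKG : K ⊆ G)
    (hf : DifferentiableOn ℂ f (G \ K)) {g : ℂ → ℂ} (hg : DifferentiableOn ℂ g (G \ K)) :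
    ∃ (H Φ : ℂ → ℂ) (W : Set ℂ) (c : ℂ), IsOpen W ∧ K ⊆ W ∧ W ⊆ G ∧ DifferentiableOn ℂ H Kᶜ ∧
      Tendsto H (cocompact ℂ) (𝓝 0) ∧ Tendsto (fun z => z * H z) (cocompact ℂ) (𝓝 c) ∧
      (∀ z ∈ W, AnalyticAt ℂ Φ (f z)) ∧ ∀ z ∈ W, z ∉ K → Φ (f z) - H z = g z := by
  obtain ⟨χ, hχ, hχc, hχG, -, W, hW, hKW, hWG, hχ1⟩ := exists_smooth_cutoff hK hG hKG
  let S : Sit := ⟨f, K, G, χ, W, hK, hG, hf, hχ, hχc, hχG, hW, hKW, hWG, hχ1⟩
  obtain ⟨φ, hφ⟩ := S.solve hg
  have hβ := S.den_contDiff hg hφ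
  obtain ⟨c, h1, h2⟩ := S.CT_far hβ.continuous
  refine ⟨S.H g φ, Pot S.f (S.D.den φ), W, c, hW, hKW, hWG, S.H_diff hg hφ, ?_, ?_, ?_, ?_⟩
  · exact h1.congr' (S.H_far_eq (g := g) (φ := φ)).symm
  · refine h2.congr' ?_
    filter_upwards [S.H_far_eq (g := g) (φ := φ)] with z hz
    rw [hz]
  · intro z hz
    exact S.Pot_analyticAt (S.W_not_Q hz)
  · intro z hz _
    rw [S.H_W hz]
    change Pot S.f (S.D.den φ) (S.f z) - (Pot S.f (S.D.den φ) (S.f z) - g z) = g z
    ring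

end Pool.Agent.LibHelper41.Weld
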