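import Pool.Agent.Lib_helper41.Weld.Cousin

set_option autoImplicit false

namespace Pool.Agent.LibHelper41.Weld

open MeasureTheory Metric Set Filter Topology Complex
open scoped ContDiff ComplexConjugate Real
open Pool.Agent.LibHelper41 Pool.Agent.LibHelper41.Remov

/-- holomorphic in the charts `ch` -/
def CH (ch : ℂ → (ℂ ≃ₜ ℂ)) (Θ : ℂ → ℂ) (z : ℂ) : Prop :=
  ∃ Ψ : ℂ → ℂ, AnalyticAt ℂ Ψ (ch z z) ∧ Θ =ᶠ[𝓝 z] fun x => Ψ (ch z x)

variable {ch : ℂ → (ℂ ≃ₜ ℂ)} {Θ Θ' : ℂ → ℂ} {z : ℂ}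

theorem CH.loc (h : CH ch Θ z) : Loc Θ z := by
  obtain ⟨Ψ, h1, h2⟩ := h
  exact ⟨ch z, Ψ, h1, h2⟩

theorem CH.mul (h : CH ch Θ z) (h' : CH ch Θ' z) : CH ch (fun x => Θ x * Θ' x) z := by
  obtain ⟨Ψ, h1, h2⟩ := h
  obtain ⟨Ψ', h1', h2'⟩ := h'
  refine ⟨fun w => Ψ w * Ψ' w, h1.mul h1', ?_⟩
  filter_upwards [h2, h2'] with x h3 h4
  rw [h3, h4]

theorem CH.sub_const (h : CH ch Θ z) (c : ℂ) : CH ch (fun x => Θ x - c) z := by
  obtain ⟨Ψ, h1, h2⟩ := h
  refine ⟨fun w => Ψ w - c, h1.sub analyticAt_const, ?_⟩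
  filter_upwards [h2] with x h3
  rw [h3]

theorem CH.congr (h : CH ch Θ z) (he : Θ =ᶠ[𝓝 z] Θ') : CH ch Θ' z := by
  obtain ⟨Ψ, h1, h2⟩ := h
  exact ⟨Ψ, h1, he.symm.trans h2⟩

/-- abstract injectivity criterion -/
theorem inj_of_poles {F : ℂ → ℂ} (hF : ∀ z, CH ch F z)
    (hFinf : Tendsto (fun z => F z - z) (cocompact ℂ) (𝓝 0))
    (hpole : ∀ p, ∃ (R Ψ : ℂ → ℂ) (c : ℂ), (∀ z, z ≠ p → CH ch R z) ∧
      Tendsto (fun z => z * R z) (cocompact ℂ) (𝓝 c) ∧ AnalyticAt ℂ Ψ (ch p p) ∧
      ∀ᶠ z in 𝓝[≠] p, R z = 1 / (ch p z - ch p p) + Ψ (ch p z)) :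
    Function.Injective F := by
  intro q p hqp
  by_contra hne
  obtain ⟨R, Ψ, c, hR, hRinf, hΨ, hRp⟩ := hpole p
  obtain ⟨ΨF, hΨF, hFe⟩ := hF p
  set e := ch p with he
  set a := F p with ha
  have hFp : ΨF (e p) = a := hFe.self_of_nhds.symm
  have hninf : Tendsto (fun z : ℂ => ‖z‖) (cocompact ℂ) atTop := tendsto_norm_cocompact_atTop
  have hne0 : ∀ᶠ z : ℂ in cocompact ℂ, z ≠ 0 := by
    filter_upwards [hninf.eventually_gt_atTop 0] with z hz
    exact norm_pos_iff.1 hz
  have hinv : Tendsto (fun z : ℂ => z⁻¹) (cocompact ℂ) (𝓝 0) := by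
    rw [tendsto_zero_iff_norm_tendsto_zero]
    simp_rw [norm_inv]
    exact tendsto_inv_atTop_zero.comp hninf
  have hR0 : Tendsto R (cocompact ℂ) (𝓝 0) := by
    have h1 := hRinf.mul hinv
    rw [mul_zero] at h1
    refine h1.congr' ?_
    filter_upwards [hne0] with z hz
    field_simp
  have hprod : Tendsto (fun z => (F z - a) * R z) (cocompact ℂ) (𝓝 c) := by
    have h1 := hRinf.add ((hFinf.sub_const a).mul hR0)
    rw [mul_zero, add_zero] at h1
    refine h1.congr fun z => ?_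
    ring
  classical
  set ΨT : ℂ → ℂ := fun w => dslope ΨF (e p) w + (ΨF w - a) * Ψ w - c with hΨT
  have hds : AnalyticAt ℂ (dslope ΨF (e p)) (e p) := by
    obtain ⟨r, hr, hra⟩ := Metric.eventually_nhds_iff_ball.1 hΨF.eventually_analyticAt
    have h1 : DifferentiableOn ℂ ΨF (ball (e p) r) := fun w hw =>
      (hra w hw).differentiableAt.differentiableWithinAt
    have h2 : DifferentiableOn ℂ (dslope ΨF (e p)) (ball (e p) r) :=
      (Complex.differentiableOn_dslope (ball_mem_nhds _ hr)).2 h1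
    exact h2.analyticOnNhd isOpen_ball _ (mem_ball_self hr)
  have hΨTa : AnalyticAt ℂ ΨT (e p) :=
    (hds.add ((hΨF.sub analyticAt_const).mul hΨ)).sub analyticAt_const
  have hΘ : ∀ z, (if z = p then ΨT (e p) else (F z - a) * R z - c) = 0 := by
    refine liouville (Θ := fun z => if z = p then ΨT (e p) else (F z - a) * R z - c) ?_ ?_
    · intro z
      by_cases hz : z = p
      · rw [hz]
        refine ⟨e, ΨT, hΨTa, ?_⟩
        rw [eventually_nhdsWithin_iff] at hRp
        filter_upwards [hFe, hRp] with x hx1 hx2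
        split_ifs with hx
        · rw [hx]
        · have hx3 := hx2 hx
          have hex : e x ≠ e p := fun h => hx (e.injective h)
          simp only [hΨT]
          rw [hx1, hx3, dslope_of_ne _ hex, slope_def_field, hFp]
          ring
      · have h1 : CH ch (fun x => (F x - a) * R x - c) z :=
          (((hF z).sub_const a).mul (hR z hz)).sub_const c
        refine (h1.congr ?_).loc
        filter_upwards [isOpen_ne.mem_nhds hz] with x hx
        rw [if_neg hx]
    · have h1 := hprod.sub_const c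
      rw [sub_self] at h1
      refine h1.congr' ?_
      have h2 : ∀ᶠ z : ℂ in cocompact ℂ, z ∈ ({p} : Set ℂ)ᶜ :=
        (isCompact_singleton (x := p)).compl_mem_cocompact
      filter_upwards [h2] with z hz
      rw [if_neg (show ¬ z = p from hz)]
  have hall : ∀ z, z ≠ p → (F z - a) * R z = c := by
    intro z hz
    have h1 := hΘ z
    rw [if_neg hz] at h1
    exact sub_eq_zero.1 h1
  have hc0 : c = 0 := by
    rw [← hall q hne, hqp, sub_self, zero_mul]
  -- `R` does not vanish near `p`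
  have hRne : ∀ᶠ z in 𝓝[≠] p, R z ≠ 0 := by
    have h1 : Tendsto (fun z => Ψ (e z) * (e z - e p)) (𝓝 p) (𝓝 0) := by
      have h2 : ContinuousAt (fun z => Ψ (e z)) p :=
        ContinuousAt.comp (f := e) (g := Ψ) hΨ.continuousAt e.continuous.continuousAt
      have h3 : ContinuousAt (fun z => Ψ (e z) * (e z - e p)) p :=
        h2.mul (e.continuous.continuousAt.sub continuousAt_const)
      have h4 := h3.tendsto
      simpa using h4
    have h2 : ∀ᶠ z in 𝓝[≠] p, ‖Ψ (e z) * (e z - e p)‖ < 1 := by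
      have h3 := h1.norm
      rw [norm_zero] at h3
      exact (h3.eventually (gt_mem_nhds one_pos)).filter_mono nhdsWithin_le_nhds
    filter_upwards [h2, hRp, self_mem_nhdsWithin] with z h3 h4 h5 h6
    have hez : e z - e p ≠ 0 := sub_ne_zero.2 fun h => h5 (e.injective h)
    rw [h6] at h4
    have h7 : Ψ (e z) * (e z - e p) = -1 := by
      have h8 : (1 / (e z - e p) + Ψ (e z)) * (e z - e p) = 0 := by
        rw [← h4, zero_mul]
      rw [add_mul, one_div, inv_mul_cancel₀ hez] at h8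
      linear_combination h8
    rw [h7, norm_neg, norm_one] at h3
    exact lt_irrefl _ h3
  have hFa : ∀ᶠ z in 𝓝 p, F z - a = 0 := by
    rw [eventually_nhdsWithin_iff] at hRne
    filter_upwards [hRne] with z hz
    by_cases hzp : z = p
    · rw [hzp]
      exact sub_self a
    · have h1 := hall z hzp
      rw [hc0] at h1
      exact (mul_eq_zero.1 h1).resolve_right (hz hzp)
  have hconst := uniq_cont (Θ := fun z => F z - a) (fun z => ((hF z).sub_const a).loc) hFa
  have h1 : Tendsto (fun z : ℂ => ‖a - z‖) (cocompact ℂ) (𝓝 0) := by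
    have h2 := hFinf.norm
    rw [norm_zero] at h2
    refine h2.congr fun z => ?_
    rw [sub_eq_zero.1 (hconst z)]
  have h2 : Tendsto (fun z : ℂ => ‖a - z‖) (cocompact ℂ) atTop := by
    refine tendsto_atTop_mono (fun z => ?_) (tendsto_atTop_add_const_right _ (-‖a‖) hninf)
    have := norm_sub_norm_le z a
    rw [norm_sub_rev a z]
    linarith
  exact not_tendsto_nhds_of_tendsto_atTop h2 0 h1

open Classical in
/-- the charts of the glued sphere -/
noncomputable def chart (f : ℂ ≃ₜ ℂ) (K : Set ℂ) (z : ℂ) : ℂ ≃ₜ ℂ :=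
  if z ∈ K then f else Homeomorph.refl ℂ

theorem chart_mem (f : ℂ ≃ₜ ℂ) {K : Set ℂ} {z : ℂ} (hz : z ∈ K) : chart f K z = f := if_pos hz

theorem chart_not_mem (f : ℂ ≃ₜ ℂ) {K : Set ℂ} {z : ℂ} (hz : z ∉ K) :
    chart f K z = Homeomorph.refl ℂ := if_neg hz

theorem CH_of_analyticAt (f : ℂ ≃ₜ ℂ) {K : Set ℂ} {z : ℂ} (hz : z ∉ K) {Θ : ℂ → ℂ}
    (h : AnalyticAt ℂ Θ z) : CH (chart f K) Θ z := by
  refine ⟨Θ, ?_, ?_⟩
  · rw [chart_not_mem f hz]
    exact h
  · rw [chart_not_mem f hz]
    exact EventuallyEq.rfl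

theorem CH_of_mem (f : ℂ ≃ₜ ℂ) {K : Set ℂ} {z : ℂ} (hz : z ∈ K) {Θ Ψ : ℂ → ℂ}
    (h : AnalyticAt ℂ Ψ (f z)) (he : Θ =ᶠ[𝓝 z] fun x => Ψ (f x)) : CH (chart f K) Θ z := by
  refine ⟨Ψ, ?_, ?_⟩
  · rw [chart_mem f hz]
    exact h
  · rw [chart_mem f hz]
    exact he

/-- meromorphic functions with one simple pole -/
theorem exists_pole (f : ℂ ≃ₜ ℂ) {K G : Set ℂ} (hK : IsCompact K) (hG : IsOpen G) (hKG : K ⊆ G)
    (hf : DifferentiableOn ℂ f (G \ K)) (p : ℂ) :
    ∃ (R Ψ : ℂ → ℂ) (c : ℂ), (∀ z, z ≠ p → CH (chart f K) R z) ∧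
      Tendsto (fun z => z * R z) (cocompact ℂ) (𝓝 c) ∧ AnalyticAt ℂ Ψ (chart f K p p) ∧
      ∀ᶠ z in 𝓝[≠] p, R z = 1 / (chart f K p z - chart f K p p) + Ψ (chart f K p z) := by
  classical
  have hKo : IsOpen Kᶜ := hK.isClosed.isOpen_compl
  by_cases hp : p ∈ K
  · -- pole in the set
    have hne : ∀ z ∈ G \ K, f z - f p ≠ 0 := fun z hz h =>
      hz.2 (f.injective (sub_eq_zero.1 h) ▸ hp)
    have hg : DifferentiableOn ℂ (fun z => -(1 / (f z - f p))) (G \ K) :=
      ((differentiableOn_const _).div (hf.sub_const _) hne).neg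
    obtain ⟨H, Φ, W, c, hW, hKW, hWG, hH, -, hHc, hΦ, hrel⟩ := cousin f hK hG hKG hf hg
    refine ⟨fun z => if z ∈ K then Φ (f z) + 1 / (f z - f p) else H z, Φ, c, ?_, ?_, ?_, ?_⟩
    · intro z hz
      by_cases hzK : z ∈ K
      · have hfz : f z - f p ≠ 0 := sub_ne_zero.2 fun h => hz (f.injective h)
        refine CH_of_mem f hzK (Ψ := fun w => Φ w + 1 / (w - f p)) ?_ ?_
        · exact (hΦ z (hKW hzK)).add (analyticAt_const.div (analyticAt_id.sub analyticAt_const) hfz)
        · filter_upwards [hW.mem_nhds (hKW hzK)] with x hx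
          split_ifs with h1
          · rfl
          · have := hrel x hx h1
            linear_combination -this
      · refine CH_of_analyticAt f hzK ((hH.analyticOnNhd hKo z hzK).congr ?_)
        filter_upwards [hKo.mem_nhds hzK] with x hx
        rw [if_neg hx]
    · refine hHc.congr' ?_
      have h1 : ∀ᶠ z in cocompact ℂ, z ∈ Kᶜ := hK.compl_mem_cocompact
      filter_upwards [h1] with z hz
      rw [if_neg hz]
    · rw [chart_mem f hp]
      exact hΦ p (hKW hp)
    · rw [chart_mem f hp]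
      filter_upwards [nhdsWithin_le_nhds (hW.mem_nhds (hKW hp))] with x hx
      split_ifs with h1
      · ring
      · have := hrel x hx h1
        linear_combination -this
  · -- pole off the set
    have hG' : IsOpen (G \ {p}) := hG.sdiff isClosed_singleton
    have hKG' : K ⊆ G \ {p} := fun z hz => ⟨hKG hz, fun h => hp (h ▸ hz)⟩
    have hf' : DifferentiableOn ℂ f ((G \ {p}) \ K) := hf.mono fun z hz => ⟨hz.1.1, hz.2⟩
    have hg : DifferentiableOn ℂ (fun z : ℂ => 1 / (z - p)) ((G \ {p}) \ K) :=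
      (differentiableOn_const _).div (differentiableOn_id.sub_const _)
        fun z hz => sub_ne_zero.2 hz.1.2
    obtain ⟨H, Φ, W, c, hW, hKW, hWG, hH, -, hHc, hΦ, hrel⟩ := cousin f hK hG' hKG' hf' hg
    refine ⟨fun z => if z ∈ K then Φ (f z) else 1 / (z - p) + H z, H, 1 + c, ?_, ?_, ?_, ?_⟩
    · intro z hz
      by_cases hzK : z ∈ K
      · refine CH_of_mem f hzK (hΦ z (hKW hzK)) ?_
        filter_upwards [hW.mem_nhds (hKW hzK)] with x hx
        split_ifs with h1
        · rfl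
        · have := hrel x hx h1
          linear_combination -this
      · have h2 : AnalyticAt ℂ (fun z => 1 / (z - p) + H z) z :=
          (analyticAt_const.div (analyticAt_id.sub analyticAt_const) (sub_ne_zero.2 hz)).add
            (hH.analyticOnNhd hKo z hzK)
        refine CH_of_analyticAt f hzK (h2.congr ?_)
        filter_upwards [hKo.mem_nhds hzK] with x hx
        rw [if_neg hx]
    · have hninf : Tendsto (fun z : ℂ => ‖z‖) (cocompact ℂ) atTop := tendsto_norm_cocompact_atTop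
      have h1 : Tendsto (fun z : ℂ => z * (1 / (z - p))) (cocompact ℂ) (𝓝 1) := by
        have h2 : Tendsto (fun z : ℂ => 1 + p * (z - p)⁻¹) (cocompact ℂ) (𝓝 (1 + p * 0)) := by
          refine Tendsto.const_add _ (Tendsto.const_mul _ ?_)
          rw [tendsto_zero_iff_norm_tendsto_zero]
          simp_rw [norm_inv]
          refine tendsto_inv_atTop_zero.comp ?_
          refine tendsto_atTop_mono (fun z => ?_) (tendsto_atTop_add_const_right _ (-‖p‖) hninf)
          have := norm_sub_norm_le z p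
          linarith
        rw [mul_zero, add_zero] at h2
        refine h2.congr' ?_
        have h3 : ∀ᶠ z : ℂ in cocompact ℂ, z ∈ ({p} : Set ℂ)ᶜ :=
          (isCompact_singleton (x := p)).compl_mem_cocompact
        filter_upwards [h3] with z hz
        have : z - p ≠ 0 := sub_ne_zero.2 hz
        field_simp
        ring
      refine (h1.add hHc).congr' ?_
      have h4 : ∀ᶠ z in cocompact ℂ, z ∈ Kᶜ := hK.compl_mem_cocompact
      filter_upwards [h4] with z hz
      rw [if_neg hz]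
      ring
    · rw [chart_not_mem f hp]
      exact hH.analyticOnNhd hKo p hp
    · rw [chart_not_mem f hp]
      filter_upwards [nhdsWithin_le_nhds (hKo.mem_nhds hp)] with x hx
      rw [if_neg hx]
      rfl

/-- Uniformisation of the glued sphere. -/
theorem exists_global (f : ℂ ≃ₜ ℂ) {K G : Set ℂ} (hK : IsCompact K) (hG : IsOpen G) (hKG : K ⊆ G)
    (hf : DifferentiableOn ℂ f (G \ K)) :
    ∃ (F : ℂ ≃ₜ ℂ) (Φ : ℂ → ℂ) (W : Set ℂ), DifferentiableOn ℂ F Kᶜ ∧
      Tendsto (fun z => F z - z) (cocompact ℂ) (𝓝 0) ∧ IsOpen W ∧ K ⊆ W ∧ W ⊆ G ∧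
      (∀ z ∈ W, AnalyticAt ℂ Φ (f z)) ∧ ∀ z ∈ W, F z = Φ (f z) := by
  classical
  have hKo : IsOpen Kᶜ := hK.isClosed.isOpen_compl
  obtain ⟨H, Φ, W, c, hW, hKW, hWG, hH, hH0, -, hΦ, hrel⟩ :=
    cousin f hK hG hKG hf (g := fun z => z) differentiableOn_id
  set F : ℂ → ℂ := fun z => if z ∈ K then Φ (f z) else z + H z with hF
  have hFW : ∀ z ∈ W, F z = Φ (f z) := by
    intro z hz
    simp only [hF]
    split_ifs with h1
    · rfl
    · have := hrel z hz h1
      linear_combination -this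
  have hFd : DifferentiableOn ℂ F Kᶜ := by
    have h1 : DifferentiableOn ℂ (fun z => z + H z) Kᶜ := differentiableOn_id.add hH
    exact h1.congr fun z hz => if_neg hz
  have hFCH : ∀ z, CH (chart f K) F z := by
    intro z
    by_cases hzK : z ∈ K
    · refine CH_of_mem f hzK (hΦ z (hKW hzK)) ?_
      filter_upwards [hW.mem_nhds (hKW hzK)] with x hx
      exact hFW x hx
    · exact CH_of_analyticAt f hzK (hFd.analyticOnNhd hKo z hzK)
  have hFinf : Tendsto (fun z => F z - z) (cocompact ℂ) (𝓝 0) := by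
    refine hH0.congr' ?_
    have h4 : ∀ᶠ z in cocompact ℂ, z ∈ Kᶜ := hK.compl_mem_cocompact
    filter_upwards [h4] with z hz
    simp only [hF]
    rw [if_neg hz]
    ring
  have hinj : Function.Injective F := inj_of_poles hFCH hFinf (exists_pole f hK hG hKG hf)
  have hcont : Continuous F := continuous_iff_continuousAt.2 fun z => (hFCH z).loc.continuousAt
  have hopen : IsOpenMap F := by
    rw [isOpenMap_iff_nhds_le]
    intro z
    refine (hFCH z).loc.nhds_le fun hcon => ?_
    have h1 : ∀ᶠ x in 𝓝[≠] z, F x = F z := hcon.filter_mono nhdsWithin_le_nhds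
    obtain ⟨x, hx1, hx2⟩ := (h1.and self_mem_nhdsWithin).exists
    exact hx2 (hinj hx1)
  have hprop : Tendsto F (cocompact ℂ) (cocompact ℂ) := by
    have hninf : Tendsto (fun z : ℂ => ‖z‖) (cocompact ℂ) atTop := tendsto_norm_cocompact_atTop
    have h1 : Tendsto (fun z => ‖F z‖) (cocompact ℂ) atTop := by
      have h2 : ∀ᶠ z in cocompact ℂ, ‖F z - z‖ < 1 := by
        have h3 := hFinf.norm
        rw [norm_zero] at h3
        exact h3.eventually (gt_mem_nhds one_pos)
      refine tendsto_atTop_mono' _ ?_ (tendsto_atTop_add_const_right _ (-1 : ℝ) hninf)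
      filter_upwards [h2] with z hz
      have := norm_sub_norm_le z (F z)
      rw [norm_sub_rev] at this
      linarith
    rw [← Metric.cobounded_eq_cocompact (α := ℂ)]
    rw [← Metric.cobounded_eq_cocompact (α := ℂ)] at h1
    exact tendsto_norm_atTop_iff_cobounded.1 h1
  have hsurj : Function.Surjective F := by
    have hp : IsProperMap F := isProperMap_iff_tendsto_cocompact.2 ⟨hcont, hprop⟩
    have hcl : IsClosed (range F) := hp.isClosedMap.isClosed_range
    have hop : IsOpen (range F) := hopen.isOpen_range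
    have := IsClopen.eq_univ ⟨hcl, hop⟩ (range_nonempty F)
    exact range_eq_univ.1 this
  let e : ℂ ≃ ℂ := Equiv.ofBijective F ⟨hinj, hsurj⟩
  refine ⟨e.toHomeomorphOfContinuousOpen hcont hopen, Φ, W, hFd, hFinf, hW, hKW, hWG, hΦ, hFW⟩

/-- Localisation: a compact set which is removable for homeomorphisms of the plane is removable
locally. -/
theorem localise (f : ℂ ≃ₜ ℂ) {K G : Set ℂ} (hK : IsCompact K) (hG : IsOpen G) (hKG : K ⊆ G)
    (hf : DifferentiableOn ℂ f (G \ K))
    (hrem : ∀ F : ℂ ≃ₜ ℂ, DifferentiableOn ℂ F Kᶜ → Differentiable ℂ F) :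
    DifferentiableOn ℂ f G := by
  obtain ⟨F, Φ, W, hFd, hFinf, hW, hKW, hWG, hΦ, hFW⟩ := exists_global f hK hG hKG hf
  have hFe := hrem F hFd
  have hid : ∀ z, F z - z = 0 := by
    refine liouville (Θ := fun z => F z - z) (fun z => Loc.of_analyticAt ?_) hFinf
    exact (hFe.sub differentiable_id).analyticAt z
  have hΦf : ∀ z ∈ W, Φ (f z) = z := fun z hz => by
    rw [← hFW z hz]
    exact sub_eq_zero.1 (hid z)
  have hV : IsOpen (f '' W) := f.isOpenMap _ hW
  have hΦd : DifferentiableOn ℂ Φ (f '' W) := by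
    rintro _ ⟨z, hz, rfl⟩
    exact (hΦ z hz).differentiableAt.differentiableWithinAt
  have hΦinj : InjOn Φ (f '' W) := by
    rintro _ ⟨z, hz, rfl⟩ _ ⟨w, hw, rfl⟩ h
    rw [hΦf z hz, hΦf w hw] at h
    rw [h]
  intro z hz
  by_cases hzK : z ∈ K
  · have hzW := hKW hzK
    have hd := deriv_ne_zero_of_injOn hV hΦd hΦinj (mem_image_of_mem f hzW)
    have h1 : HasDerivAt Φ (deriv Φ (f z)) (f z) := (hΦ z hzW).differentiableAt.hasDerivAt
    exact (HasDerivAt.of_local_left_inverse f.continuous.continuousAt h1 hd (by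
      filter_upwards [hW.mem_nhds hzW] with x hx
      exact hΦf x hx)).differentiableAt.differentiableWithinAt
  · exact (hf.differentiableAt ((hG.sdiff hK.isClosed).mem_nhds ⟨hz, hzK⟩)).differentiableWithinAt

end Pool.Agent.LibHelper41.Weld
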