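import Pool.Agent.Lib_helper41.Remov.Homeo

set_option autoImplicit false

namespace Pool.Agent.LibHelper41.Weld

open Set Metric Filter
open scoped Topology

/-- a holomorphic function of one variable which is injective on an open set has nonvanishing
derivative there -/
theorem deriv_ne_zero_of_injOn {f : ℂ → ℂ} {U : Set ℂ} (hU : IsOpen U)
    (hf : DifferentiableOn ℂ f U) (hinj : InjOn f U) {z : ℂ} (hz : z ∈ U) : deriv f z ≠ 0 := by
  intro h0
  have hfa : AnalyticOnNhd ℂ f U := hf.analyticOnNhd hU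
  have hda : AnalyticAt ℂ (deriv f) z := (hfa z hz).deriv
  obtain ⟨r₀, hr₀, hr₀U⟩ := Metric.isOpen_iff.1 hU z hz
  -- the derivative is not locally zero
  have hnz : ∀ᶠ w in 𝓝[≠] z, deriv f w ≠ 0 := by
    rcases hda.eventually_eq_zero_or_eventually_ne_zero with h | h
    · exfalso
      obtain ⟨r, hr, hrb⟩ := Metric.eventually_nhds_iff_ball.1 h
      set ρ := min r r₀ with hρ
      have hρ0 : 0 < ρ := lt_min hr hr₀
      have hconst : ∀ w ∈ ball z ρ, f w = f z := by
        intro w hw
        have hdiff : ∀ x ∈ ball z ρ, DifferentiableAt ℂ f x := fun x hx =>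
          hf.differentiableAt (hU.mem_nhds (hr₀U (ball_subset_ball (min_le_right _ _) hx)))
        have := (convex_ball z ρ).norm_image_sub_le_of_norm_deriv_le (f := f) (C := 0) hdiff
          (fun x hx => by rw [hrb x (ball_subset_ball (min_le_left _ _) hx)]; simp)
          (mem_ball_self hρ0) hw
        rw [zero_mul] at this
        exact sub_eq_zero.1 (norm_le_zero_iff.1 this)
      have hw : z + (ρ / 2 : ℝ) ∈ ball z ρ := by
        rw [mem_ball, dist_eq_norm, add_sub_cancel_left, Complex.norm_real, Real.norm_eq_abs,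
          abs_of_pos (by positivity)]
        linarith
      have h1 := hinj (hr₀U (ball_subset_ball (min_le_right _ _) hw)) hz (hconst _ hw)
      have h2 : ((ρ / 2 : ℝ) : ℂ) = 0 := by simpa using h1
      have h3 : ρ / 2 = 0 := by exact_mod_cast h2
      linarith
    · exact h
  obtain ⟨r₁, hr₁, hr₁b⟩ := Metric.mem_nhdsWithin_iff.1 hnz
  set ρ := min r₀ r₁ with hρ
  have hρ0 : 0 < ρ := lt_min hr₀ hr₁
  have hBU : ball z ρ ⊆ U := (ball_subset_ball (min_le_left _ _)).trans hr₀U
  have hBne : ∀ w ∈ ball z ρ, w ≠ z → deriv f w ≠ 0 := fun w hw hwz =>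
    hr₁b ⟨ball_subset_ball (min_le_right _ _) hw, hwz⟩
  have hopen : ∀ s ⊆ ball z ρ, IsOpen s → IsOpen (f '' s) := by
    rcases (hfa.mono hBU).is_constant_or_isOpen (convex_ball z ρ).isPreconnected with h | h
    · exfalso
      obtain ⟨c, hc⟩ := h
      have hw : z + (ρ / 2 : ℝ) ∈ ball z ρ := by
        rw [mem_ball, dist_eq_norm, add_sub_cancel_left, Complex.norm_real, Real.norm_eq_abs,
          abs_of_pos (by positivity)]
        linarith
      have h1 := hinj (hBU hw) hz ((hc _ hw).trans (hc _ (mem_ball_self hρ0)).symm)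
      have h2 : ((ρ / 2 : ℝ) : ℂ) = 0 := by simpa using h1
      have h3 : ρ / 2 = 0 := by exact_mod_cast h2
      linarith
    · exact h
  set V := f '' ball z ρ with hV
  have hVo : IsOpen V := hopen _ subset_rfl isOpen_ball
  set g := Function.invFunOn f (ball z ρ) with hg
  have hinjB : InjOn f (ball z ρ) := hinj.mono hBU
  have hgf : ∀ w ∈ ball z ρ, g (f w) = w := fun w hw => hinjB.leftInvOn_invFunOn hw
  have hgB : ∀ y ∈ V, g y ∈ ball z ρ := by
    rintro y ⟨w, hw, rfl⟩
    rw [hgf w hw]; exact hw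
  have hfg : ∀ y ∈ V, f (g y) = y := by
    rintro y ⟨w, hw, rfl⟩
    rw [hgf w hw]
  have hgc : ∀ y ∈ V, ContinuousAt g y := by
    intro y hy
    rw [Metric.continuousAt_iff']
    intro ε hε
    have h1 : IsOpen (f '' (ball z ρ ∩ ball (g y) ε)) :=
      hopen _ inter_subset_left (isOpen_ball.inter isOpen_ball)
    have h2 : y ∈ f '' (ball z ρ ∩ ball (g y) ε) :=
      ⟨g y, ⟨hgB y hy, mem_ball_self hε⟩, hfg y hy⟩
    filter_upwards [h1.mem_nhds h2] with x hx
    obtain ⟨w, ⟨hw1, hw2⟩, rfl⟩ := hx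
    rw [hgf w hw1]
    exact hw2
  have hgd : DifferentiableOn ℂ g (V \ {f z}) := by
    rintro y ⟨hy, hyz⟩
    have hgy : g y ≠ z := by
      intro h
      apply hyz
      rw [mem_singleton_iff, ← h, hfg y hy]
    have hd : HasDerivAt f (deriv f (g y)) (g y) :=
      (hf.differentiableAt (hU.mem_nhds (hBU (hgB y hy)))).hasDerivAt
    exact (HasDerivAt.of_local_left_inverse (hgc y hy) hd (hBne _ (hgB y hy) hgy)
      (by filter_upwards [hVo.mem_nhds hy] with x hx using hfg x hx)).differentiableAt.differentiableWithinAt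
  have hfz : f z ∈ V := ⟨z, mem_ball_self hρ0, rfl⟩
  have hgd' : DifferentiableOn ℂ g V :=
    (Complex.differentiableOn_compl_singleton_and_continuousAt_iff (hVo.mem_nhds hfz)).1
      ⟨hgd, hgc _ hfz⟩
  have hg1 : HasDerivAt g (deriv g (f z)) (f z) :=
    (hgd'.differentiableAt (hVo.mem_nhds hfz)).hasDerivAt
  have hf1 : HasDerivAt f (deriv f z) z := (hf.differentiableAt (hU.mem_nhds hz)).hasDerivAt
  have hcomp : HasDerivAt (g ∘ f) (deriv g (f z) * deriv f z) z := hg1.comp z hf1
  have hid : HasDerivAt (g ∘ f) 1 z := by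
    apply (hasDerivAt_id z).congr_of_eventuallyEq
    filter_upwards [ball_mem_nhds z hρ0] with w hw using hgf w hw
  have := hcomp.unique hid
  rw [h0, mul_zero] at this
  exact zero_ne_one this

end Pool.Agent.LibHelper41.Weld
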