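import Pool.Agent.Lib_helper41.Weld.Inj

set_option autoImplicit false

namespace Pool.Agent.LibHelper41.Weld

open MeasureTheory Metric Set Filter Topology Complex
open scoped ContDiff ComplexConjugate Real
open Pool.Agent.LibHelper41 Pool.Agent.LibHelper41.Remov

/-- holomorphic dependence on a parameter -/
theorem holo_param {U Q : Set ℂ} (hU : IsOpen U) {k : ℂ → ℂ → ℂ} {β : ℂ → ℂ}
    (hk : ∀ s ∈ Q, DifferentiableOn ℂ (k s) U)
    (hb : ∀ Z ⊆ U, IsCompact Z → ∃ C : ℝ, 0 ≤ C ∧ ∀ s ∈ Q, ∀ z ∈ Z, ‖k s z‖ ≤ C)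
    (hm : ∀ z ∈ U, AEStronglyMeasurable (fun s => k s z * β s) volume)
    (hβ : Integrable β) (hβ0 : ∀ s, s ∉ Q → β s = 0) :
    DifferentiableOn ℂ (fun z => ∫ s, k s z * β s) U := by
  intro z₀ hz₀
  obtain ⟨ε, hε, hεU⟩ := Metric.isOpen_iff.1 hU z₀ hz₀
  set r : ℝ := ε / 4 with hr
  have hr0 : 0 < r := by positivity
  have hcb : closedBall z₀ (2 * r) ⊆ U :=
    (closedBall_subset_ball (by rw [hr]; linarith)).trans hεU
  obtain ⟨C, hC0, hC⟩ := hb _ hcb (isCompact_closedBall _ _)
  have hder : ∀ s ∈ Q, ∀ z ∈ ball z₀ r, ‖deriv (k s) z‖ ≤ C / r := by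
    intro s hs z hz
    have hsub : closedBall z r ⊆ closedBall z₀ (2 * r) := by
      refine closedBall_subset_closedBall' ?_
      have := mem_ball.1 hz
      linarith
    refine Complex.norm_deriv_le_of_forall_mem_sphere_norm_le hr0 ?_ ?_
    · exact ((hk s hs).mono (hsub.trans hcb)).diffContOnCl_ball Subset.rfl
    · intro w hw
      exact hC s hs w (hsub (sphere_subset_closedBall hw))
  have hdiff : ∀ s ∈ Q, ∀ z ∈ ball z₀ r, HasDerivAt (k s) (deriv (k s) z) z := by
    intro s hs z hz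
    refine ((hk s hs).differentiableAt (hU.mem_nhds (hcb ?_))).hasDerivAt
    rw [mem_closedBall]
    have := mem_ball.1 hz
    linarith
  have hz₀r : z₀ ∈ ball z₀ r := mem_ball_self hr0
  have hint : Integrable (fun s => k s z₀ * β s) := by
    refine Integrable.mono' (hβ.norm.const_mul C) (hm z₀ hz₀) (Eventually.of_forall fun s => ?_)
    by_cases hs : s ∈ Q
    · rw [norm_mul]
      exact mul_le_mul_of_nonneg_right (hC s hs z₀ (mem_closedBall_self (by positivity)))
        (norm_nonneg _)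
    · rw [hβ0 s hs]
      simp
  have key := hasDerivAt_integral_of_dominated_loc_of_deriv_le (μ := (volume : Measure ℂ))
    (F := fun z s => k s z * β s) (F' := fun z s => deriv (k s) z * β s) (x₀ := z₀)
    (s := ball z₀ r) (bound := fun s => C / r * ‖β s‖) (ball_mem_nhds z₀ hr0)
    (by
      filter_upwards [hU.mem_nhds hz₀] with z hz
      exact hm z hz)
    hint
    (by
      have hseq : Tendsto (fun n : ℕ => ((1 / ((n : ℝ) + 1) : ℝ) : ℂ)) atTop (𝓝[≠] 0) := by
        refine tendsto_nhdsWithin_iff.2 ⟨?_, Eventually.of_forall fun n => ?_⟩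
        · have := (continuous_ofReal.tendsto (0 : ℝ)).comp
            (tendsto_one_div_add_atTop_nhds_zero_nat (𝕜 := ℝ))
          simpa [Function.comp_def] using this
        · have : (0 : ℝ) < 1 / ((n : ℝ) + 1) := by positivity
          exact mem_compl_singleton_iff.2 (ofReal_ne_zero.2 this.ne')
      have hev : ∀ᶠ n : ℕ in atTop, z₀ + ((1 / ((n : ℝ) + 1) : ℝ) : ℂ) ∈ U := by
        have h1 : Tendsto (fun n : ℕ => z₀ + ((1 / ((n : ℝ) + 1) : ℝ) : ℂ)) atTop (𝓝 z₀) := by
          have := (hseq.mono_right nhdsWithin_le_nhds).const_add z₀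
          simpa using this
        exact h1.eventually (hU.mem_nhds hz₀)
      obtain ⟨N, hN⟩ := eventually_atTop.1 hev
      refine aestronglyMeasurable_of_tendsto_ae atTop
        (f := fun n s => (((1 / (((n + N : ℕ) : ℝ) + 1) : ℝ) : ℂ))⁻¹ *
          (k s (z₀ + ((1 / (((n + N : ℕ) : ℝ) + 1) : ℝ) : ℂ)) * β s - k s z₀ * β s)) ?_ ?_
      · intro n
        exact ((hm _ (hN (n + N) (by omega))).sub (hm z₀ hz₀)).const_mul _
      · refine Eventually.of_forall fun s => ?_
        by_cases hs : s ∈ Q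
        · have h1 := (hasDerivAt_iff_tendsto_slope_zero.1 (hdiff s hs z₀ hz₀r)).comp
            (hseq.comp (tendsto_add_atTop_nat N))
          have h2 := h1.mul_const (β s)
          refine h2.congr fun n => ?_
          simp only [Function.comp_apply, smul_eq_mul]
          ring
        · simp [hβ0 s hs])
    (Eventually.of_forall fun s z hz => by
      by_cases hs : s ∈ Q
      · rw [norm_mul]
        exact mul_le_mul_of_nonneg_right (hder s hs z hz) (norm_nonneg _)
      · simp [hβ0 s hs])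
    (hβ.norm.const_mul _)
    (Eventually.of_forall fun s z hz => by
      by_cases hs : s ∈ Q
      · exact (hdiff s hs z hz).mul_const _
      · simp only [hβ0 s hs, mul_zero]
        exact hasDerivAt_const _ _)
  exact key.2.differentiableAt.differentiableWithinAt

/-- kernel, regularised at the diagonal -/
noncomputable def kap (f : ℂ → ℂ) (s z : ℂ) : ℂ :=
  -dslope (fun ζ => deriv f s / dslope f s ζ) s z

theorem kap_of_ne {f : ℂ → ℂ} {s z : ℂ} (hinj : Function.Injective f) (hd : deriv f s ≠ 0)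
    (h : z ≠ s) : kap f s z = deriv f s / (f s - f z) - 1 / (s - z) := by
  have h1 : z - s ≠ 0 := sub_ne_zero.2 h
  have h2 : f z - f s ≠ 0 := sub_ne_zero.2 fun he => h (hinj he)
  unfold kap
  rw [dslope_of_ne _ h, slope_def_field, dslope_same, dslope_of_ne _ h, slope_def_field,
    div_self hd]
  have h3 : s - z ≠ 0 := sub_ne_zero.2 h.symm
  have h4 : f s - f z ≠ 0 := sub_ne_zero.2 fun he => h (hinj he).symm
  field_simp
  ring

theorem kap_differentiableOn {f : ℂ → ℂ} {A : Set ℂ} (hA : IsOpen A)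
    (hf : DifferentiableOn ℂ f A) (hinj : Function.Injective f) {s : ℂ} (hs : s ∈ A) :
    DifferentiableOn ℂ (kap f s) A := by
  have hd : deriv f s ≠ 0 := deriv_ne_zero_of_injOn hA hf hinj.injOn hs
  have h1 : DifferentiableOn ℂ (dslope f s) A :=
    (Complex.differentiableOn_dslope (hA.mem_nhds hs)).2 hf
  have h2 : ∀ ζ ∈ A, dslope f s ζ ≠ 0 := by
    intro ζ _
    rcases eq_or_ne ζ s with rfl | h
    · rwa [dslope_same]
    · rw [dslope_of_ne _ h, slope_def_field]
      exact div_ne_zero (sub_ne_zero.2 fun he => h (hinj he)) (sub_ne_zero.2 h)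
  have h3 : DifferentiableOn ℂ (fun ζ => deriv f s / dslope f s ζ) A :=
    (differentiableOn_const _).div h1 h2
  exact ((Complex.differentiableOn_dslope (hA.mem_nhds hs)).2 h3).neg

theorem kap_bound {f : ℂ → ℂ} {A : Set ℂ} (hA : IsOpen A) (hfc : Continuous f)
    (hf : DifferentiableOn ℂ f A) (hinj : Function.Injective f) {Q Z : Set ℂ}
    (hQ : IsCompact Q) (hQA : Q ⊆ A) (hZ : IsCompact Z) :
    ∃ C : ℝ, 0 ≤ C ∧ ∀ s ∈ Q, ∀ z ∈ Z, ‖kap f s z‖ ≤ C := by
  obtain ⟨δ, hδ, hδA⟩ := hQ.exists_cthickening_subset_open hA hQA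
  have hT : IsCompact (cthickening δ Q) := hQ.cthickening
  set Z₀ : Set ℂ := Z ∪ cthickening δ Q with hZ₀
  have hZ₀c : IsCompact Z₀ := hZ.union hT
  set D : Set (ℂ × ℂ) := (Q ×ˢ Z₀) ∩ {p | δ ≤ dist p.1 p.2} with hD
  have hDc : IsCompact D := (hQ.prod hZ₀c).inter_right
    (isClosed_le continuous_const (continuous_fst.dist continuous_snd))
  have hderc : ContinuousOn (deriv f) A := (hf.deriv hA).continuousOn
  have hcont : ContinuousOn (fun p : ℂ × ℂ => deriv f p.1 / (f p.1 - f p.2) - 1 / (p.1 - p.2)) D := by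
    have hne : ∀ p ∈ D, p.1 ≠ p.2 := by
      rintro p ⟨-, hp⟩ he
      rw [mem_ofPred_eq, he, dist_self] at hp
      linarith
    refine ContinuousOn.sub ?_ ?_
    · refine ContinuousOn.div ?_ ?_ ?_
      · exact hderc.comp continuousOn_fst fun p hp => hQA hp.1.1
      · exact ((hfc.comp continuous_fst).sub (hfc.comp continuous_snd)).continuousOn
      · intro p hp
        exact sub_ne_zero.2 fun he => hne p hp (hinj he)
    · refine ContinuousOn.div continuousOn_const ?_ ?_
      · exact (continuous_fst.sub continuous_snd).continuousOn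
      · intro p hp
        exact sub_ne_zero.2 (hne p hp)
  obtain ⟨C, hC⟩ := hDc.exists_bound_of_continuousOn hcont
  have hfar : ∀ s ∈ Q, ∀ z ∈ Z₀, δ ≤ dist s z → ‖kap f s z‖ ≤ |C| := by
    intro s hs z hz hd
    have hne : z ≠ s := by
      rintro rfl
      rw [dist_self] at hd
      linarith
    rw [kap_of_ne hinj (deriv_ne_zero_of_injOn hA hf hinj.injOn (hQA hs)) hne]
    exact (hC (s, z) ⟨⟨hs, hz⟩, hd⟩).trans (le_abs_self C)
  refine ⟨|C|, abs_nonneg _, fun s hs z hz => ?_⟩
  rcases le_or_gt δ (dist s z) with h | h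
  · exact hfar s hs z (Or.inl hz) h
  · have hcb : closedBall s δ ⊆ cthickening δ Q := closedBall_subset_cthickening hs δ
    have hd : DiffContOnCl ℂ (kap f s) (ball s δ) :=
      ((kap_differentiableOn hA hf hinj (hQA hs)).mono (hcb.trans hδA)).diffContOnCl_ball Subset.rfl
    refine Complex.norm_le_of_forall_mem_frontier_norm_le isBounded_ball hd ?_
      (subset_closure (mem_ball'.2 h))
    intro w hw
    rw [frontier_ball s hδ.ne'] at hw
    refine hfar s hs w (Or.inr (hcb (sphere_subset_closedBall hw))) ?_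
    rw [dist_comm]
    exact (mem_sphere.1 hw).ge

theorem kap_meas {f : ℂ → ℂ} {A Q : Set ℂ} (hA : IsOpen A) (hfc : Continuous f)
    (hf : DifferentiableOn ℂ f A) (hinj : Function.Injective f) (hQA : Q ⊆ A) {β : ℂ → ℂ}
    (hβ : AEStronglyMeasurable β volume) (hβ0 : ∀ s, s ∉ Q → β s = 0) (z : ℂ) :
    AEStronglyMeasurable (fun s => kap f s z * β s) volume := by
  have h1 : Measurable fun s => deriv f s / (f s - f z) - 1 / (s - z) :=
    ((measurable_deriv f).div (hfc.measurable.sub measurable_const)).sub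
      (measurable_const.div (measurable_id.sub measurable_const))
  have h2 : AEStronglyMeasurable (fun s => (deriv f s / (f s - f z) - 1 / (s - z)) * β s) volume :=
    h1.aestronglyMeasurable.mul hβ
  refine h2.congr ?_
  have h3 : ∀ᵐ s : ℂ, s ≠ z := by
    rw [ae_iff]
    simp
  filter_upwards [h3] with s hs
  by_cases hsQ : s ∈ Q
  · rw [kap_of_ne hinj (deriv_ne_zero_of_injOn hA hf hinj.injOn (hQA hsQ)) hs.symm]
  · rw [hβ0 s hsQ]
    simp

/-- the operator `N` -/
noncomputable def Nop (f β : ℂ → ℂ) (z : ℂ) : ℂ := -(π : ℂ)⁻¹ * ∫ s, kap f s z * β s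

/-- the potential in the target plane -/
noncomputable def Pot (f β : ℂ → ℂ) (w : ℂ) : ℂ := -(π : ℂ)⁻¹ * ∫ s, deriv f s / (f s - w) * β s

theorem Nop_differentiableOn {f : ℂ → ℂ} {A Q : Set ℂ} (hA : IsOpen A) (hfc : Continuous f)
    (hf : DifferentiableOn ℂ f A) (hinj : Function.Injective f) (hQ : IsCompact Q) (hQA : Q ⊆ A)
    {β : ℂ → ℂ} (hβ : Integrable β) (hβ0 : ∀ s, s ∉ Q → β s = 0) :
    DifferentiableOn ℂ (Nop f β) A := by
  refine DifferentiableOn.const_mul (holo_param hA (k := kap f) (Q := Q)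
    (fun s hs => kap_differentiableOn hA hf hinj (hQA hs)) (fun Z _ hZ => kap_bound hA hfc hf hinj
    hQ hQA hZ) (fun z _ => kap_meas hA hfc hf hinj hQA hβ.1 hβ0 z) hβ hβ0) _

theorem Nop_bound {f β : ℂ → ℂ} {Q : Set ℂ} {z : ℂ} {C : ℝ} (hC : ∀ s ∈ Q, ‖kap f s z‖ ≤ C)
    (hβ : Integrable β) (hβ0 : ∀ s, s ∉ Q → β s = 0) : ‖Nop f β z‖ ≤ C * ∫ s, ‖β s‖ := by
  unfold Nop
  rw [norm_mul, norm_neg, norm_inv, Complex.norm_real, Real.norm_eq_abs, abs_of_pos Real.pi_pos]
  have h1 : ‖∫ s, kap f s z * β s‖ ≤ ∫ s, C * ‖β s‖ := by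
    refine norm_integral_le_of_norm_le (hβ.norm.const_mul C) (Eventually.of_forall fun s => ?_)
    by_cases hs : s ∈ Q
    · rw [norm_mul]
      exact mul_le_mul_of_nonneg_right (hC s hs) (norm_nonneg _)
    · rw [hβ0 s hs]
      simp
  rw [integral_const_mul] at h1
  have h2 : π⁻¹ ≤ 1 := inv_le_one_of_one_le₀ (by linarith [Real.pi_gt_three])
  have h3 : 0 ≤ π⁻¹ := by positivity
  calc π⁻¹ * ‖∫ s, kap f s z * β s‖ ≤ 1 * ‖∫ s, kap f s z * β s‖ := by gcongr
    _ ≤ C * ∫ s, ‖β s‖ := by rw [one_mul]; exact h1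

theorem Pot_meas {f : ℂ → ℂ} (hfc : Continuous f) {β : ℂ → ℂ} (hβ : AEStronglyMeasurable β volume)
    (w : ℂ) : AEStronglyMeasurable (fun s => deriv f s / (f s - w) * β s) volume :=
  (((measurable_deriv f).div (hfc.measurable.sub measurable_const)).aestronglyMeasurable).mul hβ

theorem Pot_differentiableOn {f : ℂ → ℂ} {A Q : Set ℂ} (hA : IsOpen A) (hfc : Continuous f)
    (hf : DifferentiableOn ℂ f A) (hQ : IsCompact Q) (hQA : Q ⊆ A)
    {β : ℂ → ℂ} (hβ : Integrable β) (hβ0 : ∀ s, s ∉ Q → β s = 0) :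
    DifferentiableOn ℂ (Pot f β) (f '' Q)ᶜ := by
  have hfQ : IsCompact (f '' Q) := hQ.image hfc
  have hne : ∀ s ∈ Q, ∀ w ∈ (f '' Q)ᶜ, f s - w ≠ 0 := by
    intro s hs w hw h
    exact hw ⟨s, hs, sub_eq_zero.1 h⟩
  refine DifferentiableOn.const_mul (holo_param hfQ.isClosed.isOpen_compl
    (k := fun s w => deriv f s / (f s - w)) (Q := Q) ?_ ?_ (fun w _ => Pot_meas hfc hβ.1 w) hβ hβ0) _
  · intro s hs
    exact (differentiableOn_const _).div ((differentiableOn_const _).sub differentiableOn_id)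
      (hne s hs)
  · intro Z hZs hZ
    have hcont : ContinuousOn (fun p : ℂ × ℂ => deriv f p.1 / (f p.1 - p.2)) (Q ×ˢ Z) := by
      refine ContinuousOn.div ?_ ?_ ?_
      · exact (hf.deriv hA).continuousOn.comp continuousOn_fst fun p hp => hQA hp.1
      · exact ((hfc.comp continuous_fst).sub continuous_snd).continuousOn
      · intro p hp
        exact hne p.1 hp.1 p.2 (hZs hp.2)
    obtain ⟨C, hC⟩ := (hQ.prod hZ).exists_bound_of_continuousOn hcont
    exact ⟨|C|, abs_nonneg _, fun s hs z hz => (hC (s, z) ⟨hs, hz⟩).trans (le_abs_self C)⟩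

/-- splitting of `N` off the support -/
theorem Nop_split {f : ℂ → ℂ} {A Q : Set ℂ} (hA : IsOpen A) (hfc : Continuous f)
    (hf : DifferentiableOn ℂ f A) (hinj : Function.Injective f) (hQ : IsCompact Q) (hQA : Q ⊆ A)
    {β : ℂ → ℂ} (hβ : Integrable β) (hβ0 : ∀ s, s ∉ Q → β s = 0) {z : ℂ} (hz : z ∉ Q) :
    Nop f β z = Pot f β (f z) - CT β z := by
  have hcont1 : ContinuousOn (fun s => deriv f s / (f s - f z)) Q := by
    refine ContinuousOn.div ((hf.deriv hA).continuousOn.mono hQA)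
      (hfc.sub continuous_const).continuousOn ?_
    intro s hs h
    exact hz (hinj (sub_eq_zero.1 h) ▸ hs)
  have hcont2 : ContinuousOn (fun s => 1 / (s - z)) Q := by
    refine ContinuousOn.div continuousOn_const (continuous_id.sub continuous_const).continuousOn ?_
    intro s hs h
    exact hz (sub_eq_zero.1 h ▸ hs)
  obtain ⟨C₁, hC₁⟩ := hQ.exists_bound_of_continuousOn hcont1
  obtain ⟨C₂, hC₂⟩ := hQ.exists_bound_of_continuousOn hcont2
  have i1 : Integrable fun s => deriv f s / (f s - f z) * β s := by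
    refine Integrable.mono' (hβ.norm.const_mul |C₁|) (Pot_meas hfc hβ.1 _)
      (Eventually.of_forall fun s => ?_)
    by_cases hs : s ∈ Q
    · rw [norm_mul]
      exact mul_le_mul_of_nonneg_right ((hC₁ s hs).trans (le_abs_self _)) (norm_nonneg _)
    · rw [hβ0 s hs]
      simp
  have i2 : Integrable fun s => 1 / (s - z) * β s := by
    refine Integrable.mono' (hβ.norm.const_mul |C₂|) ?_ (Eventually.of_forall fun s => ?_)
    · exact ((measurable_const.div (measurable_id.sub measurable_const)).aestronglyMeasurable).mul hβ.1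
    · by_cases hs : s ∈ Q
      · rw [norm_mul]
        exact mul_le_mul_of_nonneg_right ((hC₂ s hs).trans (le_abs_self _)) (norm_nonneg _)
      · rw [hβ0 s hs]
        simp
  have e1 : ∫ s, kap f s z * β s =
      (∫ s, deriv f s / (f s - f z) * β s) - ∫ s, 1 / (s - z) * β s := by
    rw [← integral_sub i1 i2]
    congr 1
    ext s
    by_cases hs : s ∈ Q
    · rw [kap_of_ne hinj (deriv_ne_zero_of_injOn hA hf hinj.injOn (hQA hs))
        (show z ≠ s from fun h => hz (by rw [h]; exact hs))]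
      ring
    · rw [hβ0 s hs]
      simp
  have e2 : CT β z = -(π : ℂ)⁻¹ * ∫ s, 1 / (s - z) * β s := by
    rw [CT_eq, ← integral_const_mul]
    congr 1
    ext s
    by_cases hs : s ∈ Q
    · unfold ker
      have h1 : z - s ≠ 0 := sub_ne_zero.2 fun h => hz (h ▸ hs)
      have h2 : s - z ≠ 0 := sub_ne_zero.2 fun h => hz (h ▸ hs)
      have h3 : (π : ℂ) ≠ 0 := ofReal_ne_zero.2 Real.pi_ne_zero
      have h4 : s - z = -(z - s) := by ring
      rw [h4]
      field_simp
    · rw [hβ0 s hs]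
      simp
  unfold Nop Pot
  rw [e1, e2]
  ring

theorem Pot_tendsto {f : ℂ → ℂ} {A Q : Set ℂ} (hA : IsOpen A) (hfc : Continuous f)
    (hf : DifferentiableOn ℂ f A) (hQ : IsCompact Q) (hQA : Q ⊆ A)
    {β : ℂ → ℂ} (hβ : Integrable β) (hβ0 : ∀ s, s ∉ Q → β s = 0) :
    Tendsto (Pot f β) (cocompact ℂ) (𝓝 0) := by
  obtain ⟨M, hM⟩ := hQ.exists_bound_of_continuousOn ((hf.deriv hA).continuousOn.mono hQA)
  obtain ⟨R, hR⟩ := hQ.exists_bound_of_continuousOn hfc.continuousOn
  set B : ℝ := ∫ s, ‖β s‖ with hB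
  have hB0 : 0 ≤ B := integral_nonneg fun _ => norm_nonneg _
  have hbound : ∀ w : ℂ, |R| + 1 ≤ ‖w‖ → ‖Pot f β w‖ ≤ |M| * B / (‖w‖ - |R|) := by
    intro w hw
    unfold Pot
    rw [norm_mul, norm_neg, norm_inv, Complex.norm_real, Real.norm_eq_abs, abs_of_pos Real.pi_pos]
    have hpos : 0 < ‖w‖ - |R| := by linarith
    have h1 : ‖∫ s, deriv f s / (f s - w) * β s‖ ≤ ∫ s, |M| / (‖w‖ - |R|) * ‖β s‖ := by
      refine norm_integral_le_of_norm_le (hβ.norm.const_mul _) (Eventually.of_forall fun s => ?_)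
      by_cases hs : s ∈ Q
      · rw [norm_mul]
        refine mul_le_mul_of_nonneg_right ?_ (norm_nonneg _)
        rw [norm_div]
        have h2 : ‖w‖ - |R| ≤ ‖f s - w‖ := by
          have h3 := norm_sub_norm_le w (f s)
          have h4 := (hR s hs).trans (le_abs_self R)
          rw [norm_sub_rev] at h3
          linarith
        have h5 := (hM s hs).trans (le_abs_self M)
        exact div_le_div₀ (abs_nonneg _) h5 hpos h2
      · rw [hβ0 s hs]
        simp
    rw [integral_const_mul] at h1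
    have h2 : π⁻¹ ≤ 1 := inv_le_one_of_one_le₀ (by linarith [Real.pi_gt_three])
    have h3 : 0 ≤ π⁻¹ := by positivity
    calc π⁻¹ * ‖∫ s, deriv f s / (f s - w) * β s‖ ≤ 1 * (|M| / (‖w‖ - |R|) * B) := by gcongr
      _ = |M| * B / (‖w‖ - |R|) := by ring
  have hlim : Tendsto (fun w : ℂ => |M| * B / (‖w‖ - |R|)) (cocompact ℂ) (𝓝 0) := by
    refine Tendsto.div_atTop tendsto_const_nhds ?_
    exact tendsto_atTop_add_const_right _ _ (tendsto_norm_cocompact_atTop)
  refine squeeze_zero_norm' ?_ hlim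
  filter_upwards [(tendsto_norm_cocompact_atTop (E := ℂ)).eventually_ge_atTop (|R| + 1)] with w hw
  exact hbound w hw

end Pool.Agent.LibHelper41.Weld
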