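import Pool.Agent.Lib_helper41.Weld.Kern

set_option autoImplicit false

namespace Pool.Agent.LibHelper41.Weld

open MeasureTheory Metric Set Filter Topology Complex
open scoped ContDiff ComplexConjugate Real BoundedContinuousFunction
open Pool.Agent.LibHelper41 Pool.Agent.LibHelper41.Remov

/-- data of the linear problem -/
structure Dat where
  f : ℂ → ℂ
  A : Set ℂ
  Q : Set ℂ
  om : ℂ → ℂ
  hA : IsOpen A
  hfc : Continuous f
  hf : DifferentiableOn ℂ f A
  hinj : Function.Injective f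
  hQ : IsCompact Q
  hQA : Q ⊆ A
  hom : Continuous om
  homQ : ∀ s, s ∉ Q → om s = 0

namespace Dat

variable (D : Dat)

instance : CompactSpace D.Q := isCompact_iff_compactSpace.1 D.hQ

/-- extension by zero -/
noncomputable def ext (φ : D.Q →ᵇ ℂ) : ℂ → ℂ := Function.extend Subtype.val φ 0

theorem ext_mem (φ : D.Q →ᵇ ℂ) {s : ℂ} (hs : s ∈ D.Q) : D.ext φ s = φ ⟨s, hs⟩ := by
  unfold ext
  exact Subtype.val_injective.extend_apply φ 0 (⟨s, hs⟩ : D.Q)

theorem ext_not_mem (φ : D.Q →ᵇ ℂ) {s : ℂ} (hs : s ∉ D.Q) : D.ext φ s = 0 := by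
  unfold ext
  rw [Function.extend_apply']
  · rfl
  · rintro ⟨⟨t, ht⟩, rfl⟩
    exact hs ht

theorem ext_add (φ ψ : D.Q →ᵇ ℂ) (s : ℂ) : D.ext (φ + ψ) s = D.ext φ s + D.ext ψ s := by
  by_cases hs : s ∈ D.Q
  · rw [ext_mem _ _ hs, ext_mem _ _ hs, ext_mem _ _ hs]
    rfl
  · rw [ext_not_mem _ _ hs, ext_not_mem _ _ hs, ext_not_mem _ _ hs, add_zero]

theorem ext_smul (c : ℂ) (φ : D.Q →ᵇ ℂ) (s : ℂ) : D.ext (c • φ) s = c * D.ext φ s := by
  by_cases hs : s ∈ D.Q
  · rw [ext_mem _ _ hs, ext_mem _ _ hs]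
    rfl
  · rw [ext_not_mem _ _ hs, ext_not_mem _ _ hs, mul_zero]

theorem ext_norm_le (φ : D.Q →ᵇ ℂ) (s : ℂ) : ‖D.ext φ s‖ ≤ ‖φ‖ := by
  by_cases hs : s ∈ D.Q
  · rw [ext_mem _ _ hs]
    exact φ.norm_coe_le_norm _
  · rw [ext_not_mem _ _ hs, norm_zero]
    exact norm_nonneg _

theorem ext_measurable (φ : D.Q →ᵇ ℂ) : Measurable (D.ext φ) :=
  (MeasurableEmbedding.subtype_coe D.hQ.measurableSet).measurable_extend φ.continuous.measurable
    measurable_const

/-- the density -/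
noncomputable def den (φ : D.Q →ᵇ ℂ) (s : ℂ) : ℂ := D.om s * D.ext φ s

theorem om_compact : HasCompactSupport D.om := HasCompactSupport.intro D.hQ D.homQ

theorem om_integrable : Integrable D.om := D.hom.integrable_of_hasCompactSupport D.om_compact

theorem den_integrable (φ : D.Q →ᵇ ℂ) : Integrable (D.den φ) := by
  refine Integrable.mono' (D.om_integrable.norm.mul_const ‖φ‖)
    (D.hom.measurable.mul (D.ext_measurable φ)).aestronglyMeasurable
    (Eventually.of_forall fun s => ?_)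
  unfold den
  rw [norm_mul]
  exact mul_le_mul_of_nonneg_left (D.ext_norm_le φ s) (norm_nonneg _)

theorem den_zero (φ : D.Q →ᵇ ℂ) (s : ℂ) (hs : s ∉ D.Q) : D.den φ s = 0 := by
  unfold den
  rw [D.homQ s hs, zero_mul]

theorem den_norm (φ : D.Q →ᵇ ℂ) : ∫ s, ‖D.den φ s‖ ≤ (∫ s, ‖D.om s‖) * ‖φ‖ := by
  rw [← integral_mul_const]
  refine integral_mono (D.den_integrable φ).norm (D.om_integrable.norm.mul_const _) fun s => ?_
  simp only [den]
  rw [norm_mul]
  exact mul_le_mul_of_nonneg_left (D.ext_norm_le φ s) (norm_nonneg _)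

theorem N_diff (φ : D.Q →ᵇ ℂ) : DifferentiableOn ℂ (Nop D.f (D.den φ)) D.A :=
  Nop_differentiableOn D.hA D.hfc D.hf D.hinj D.hQ D.hQA (D.den_integrable φ) (D.den_zero φ)

theorem kap_den_integrable (φ : D.Q →ᵇ ℂ) (z : ℂ) :
    Integrable (fun s => kap D.f s z * D.den φ s) := by
  obtain ⟨C, hC0, hC⟩ := kap_bound D.hA D.hfc D.hf D.hinj D.hQ D.hQA
    (isCompact_singleton (x := z))
  refine Integrable.mono' ((D.den_integrable φ).norm.const_mul C)
    (kap_meas D.hA D.hfc D.hf D.hinj D.hQA (D.den_integrable φ).1 (D.den_zero φ) z)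
    (Eventually.of_forall fun s => ?_)
  by_cases hs : s ∈ D.Q
  · rw [norm_mul]
    exact mul_le_mul_of_nonneg_right (hC s hs z rfl) (norm_nonneg _)
  · rw [D.den_zero φ s hs]
    simp

theorem N_add (φ ψ : D.Q →ᵇ ℂ) (z : ℂ) : Nop D.f (D.den (φ + ψ)) z =
    Nop D.f (D.den φ) z + Nop D.f (D.den ψ) z := by
  unfold Nop
  rw [← mul_add, ← integral_add (D.kap_den_integrable φ z) (D.kap_den_integrable ψ z)]
  congr 2
  ext s
  unfold den
  rw [D.ext_add]
  ring

theorem N_smul (c : ℂ) (φ : D.Q →ᵇ ℂ) (z : ℂ) : Nop D.f (D.den (c • φ)) z =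
    c * Nop D.f (D.den φ) z := by
  unfold Nop
  have : ∫ s, kap D.f s z * D.den (c • φ) s = c * ∫ s, kap D.f s z * D.den φ s := by
    rw [← integral_const_mul]
    congr 1
    ext s
    unfold den
    rw [D.ext_smul]
    ring
  rw [this]
  ring

/-- uniform bound -/
theorem N_bound {Z : Set ℂ} (hZ : IsCompact Z) :
    ∃ C : ℝ, 0 ≤ C ∧ ∀ φ : D.Q →ᵇ ℂ, ∀ z ∈ Z, ‖Nop D.f (D.den φ) z‖ ≤ C * ‖φ‖ := by
  obtain ⟨C, hC0, hC⟩ := kap_bound D.hA D.hfc D.hf D.hinj D.hQ D.hQA hZ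
  refine ⟨C * ∫ s, ‖D.om s‖, mul_nonneg hC0 (integral_nonneg fun _ => norm_nonneg _),
    fun φ z hz => ?_⟩
  refine (Nop_bound (fun s hs => hC s hs z hz) (D.den_integrable φ) (D.den_zero φ)).trans ?_
  rw [mul_assoc]
  exact mul_le_mul_of_nonneg_left (D.den_norm φ) hC0

/-- the operator as a continuous function on `Q` -/
noncomputable def NE (φ : D.Q →ᵇ ℂ) : D.Q →ᵇ ℂ :=
  BoundedContinuousFunction.mkOfCompact
    ⟨fun q => Nop D.f (D.den φ) q, (D.N_diff φ).continuousOn.comp_continuous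
      continuous_subtype_val fun q => D.hQA q.2⟩

theorem NE_apply (φ : D.Q →ᵇ ℂ) (q : D.Q) : D.NE φ q = Nop D.f (D.den φ) q := rfl

theorem exists_norm_NE : ∃ C : ℝ, 0 ≤ C ∧ ∀ φ : D.Q →ᵇ ℂ, ‖D.NE φ‖ ≤ C * ‖φ‖ := by
  obtain ⟨C, hC0, hC⟩ := D.N_bound D.hQ
  refine ⟨C, hC0, fun φ => ?_⟩
  rw [BoundedContinuousFunction.norm_le (mul_nonneg hC0 (norm_nonneg _))]
  intro q
  rw [NE_apply]
  exact hC φ q q.2

/-- the operator as a continuous linear map -/
noncomputable def NL : (D.Q →ᵇ ℂ) →L[ℂ] (D.Q →ᵇ ℂ) :=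
  LinearMap.mkContinuousOfExistsBound
    { toFun := D.NE
      map_add' := fun φ ψ => by
        ext q
        exact D.N_add φ ψ q
      map_smul' := fun c φ => by
        ext q
        exact D.N_smul c φ q }
    (by
      obtain ⟨C, _, hC⟩ := D.exists_norm_NE
      exact ⟨C, hC⟩)

theorem NL_apply (φ : D.Q →ᵇ ℂ) : D.NL φ = D.NE φ := rfl

theorem NL_compact : IsCompactOperator D.NL := by
  have h1 : IsCompactOperator (D.NL : (D.Q →ᵇ ℂ) →ₗ[ℂ] (D.Q →ᵇ ℂ)) := by
    rw [isCompactOperator_iff_isCompact_closure_image_closedBall _ one_pos]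
    obtain ⟨C, hC0, hC⟩ := D.exists_norm_NE
    refine BoundedContinuousFunction.arzela_ascoli (closedBall (0 : ℂ) C) (isCompact_closedBall _ _)
      _ ?_ ?_
    · rintro g q ⟨φ, hφ, rfl⟩
      rw [mem_closedBall_zero_iff] at hφ ⊢
      have h2 := (D.NE φ).norm_coe_le_norm q
      have h3 := hC φ
      have h4 : ‖(D.NE φ) q‖ ≤ C * 1 := h2.trans (h3.trans (mul_le_mul_of_nonneg_left hφ hC0))
      rw [mul_one] at h4
      exact h4
    · intro q₀
      obtain ⟨ε, hε, hεA⟩ := Metric.isOpen_iff.1 D.hA q₀ (D.hQA q₀.2)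
      set r : ℝ := ε / 4 with hr
      have hr0 : 0 < r := by positivity
      have hcb : closedBall (q₀ : ℂ) (2 * r) ⊆ D.A :=
        (closedBall_subset_ball (by rw [hr]; linarith)).trans hεA
      obtain ⟨M, hM0, hM⟩ := D.N_bound (isCompact_closedBall (q₀ : ℂ) (2 * r))
      refine Metric.equicontinuousAt_of_continuity_modulus (fun q : D.Q => M / r * ‖(q : ℂ) - q₀‖)
        ?_ _ ?_
      · have : Continuous fun q : D.Q => M / r * ‖(q : ℂ) - q₀‖ := by fun_prop
        have h2 := this.tendsto q₀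
        simpa using h2
      · have h3 : ∀ᶠ q : D.Q in 𝓝 q₀, (q : ℂ) ∈ ball (q₀ : ℂ) r :=
          (continuous_subtype_val.tendsto q₀).eventually (ball_mem_nhds _ hr0)
        filter_upwards [h3] with q hq
        rintro ⟨g, φ, hφ, rfl⟩
        rw [mem_closedBall_zero_iff] at hφ
        have hder : ∀ z ∈ ball (q₀ : ℂ) r, ‖deriv (Nop D.f (D.den φ)) z‖ ≤ M / r := by
          intro z hz
          have hsub : closedBall z r ⊆ closedBall (q₀ : ℂ) (2 * r) := by
            refine closedBall_subset_closedBall' ?_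
            have := mem_ball.1 hz
            linarith
          refine Complex.norm_deriv_le_of_forall_mem_sphere_norm_le hr0 ?_ ?_
          · exact ((D.N_diff φ).mono (hsub.trans hcb)).diffContOnCl_ball Subset.rfl
          · intro w hw
            refine (hM φ w (hsub (sphere_subset_closedBall hw))).trans ?_
            calc M * ‖φ‖ ≤ M * 1 := mul_le_mul_of_nonneg_left hφ hM0
              _ = M := mul_one M
        have hd : ∀ z ∈ ball (q₀ : ℂ) r, DifferentiableAt ℂ (Nop D.f (D.den φ)) z := by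
          intro z hz
          refine (D.N_diff φ).differentiableAt (D.hA.mem_nhds (hcb ?_))
          rw [mem_closedBall]
          have := mem_ball.1 hz
          linarith
        have h4 := (convex_ball (q₀ : ℂ) r).norm_image_sub_le_of_norm_deriv_le hd hder
          (mem_ball_self hr0) hq
        change dist (D.NE φ q₀) (D.NE φ q) ≤ _
        rw [dist_comm, dist_eq_norm]
        exact h4
  exact h1

/-- Fredholm alternative for `1 + N` -/
theorem fredholm (hker : ∀ φ : D.Q →ᵇ ℂ, φ + D.NE φ = 0 → φ = 0) (ψ : D.Q →ᵇ ℂ) :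
    ∃ φ : D.Q →ᵇ ℂ, φ + D.NE φ = ψ := by
  have hμ : (-1 : ℂ) ≠ 0 := by norm_num
  rcases IsCompactOperator.hasEigenvalue_or_mem_resolventSet D.NL_compact hμ with h | h
  · exfalso
    obtain ⟨φ, hφ⟩ := h.exists_hasEigenvector
    have h1 := hφ.apply_eq_smul
    have h2 : D.NE φ = (-1 : ℂ) • φ := h1
    refine hφ.2 (hker φ ?_)
    rw [h2]
    simp
  · rw [spectrum.mem_resolventSet_iff, ContinuousLinearMap.isUnit_iff_bijective] at h
    obtain ⟨φ, hφ⟩ := h.2 (-ψ)
    refine ⟨φ, ?_⟩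
    have h1 : (-1 : ℂ) • φ - D.NE φ = -ψ := by
      rw [← hφ]
      ext q
      simp [Algebra.algebraMap_eq_smul_one, NL_apply]
    have h2 : φ + D.NE φ = -((-1 : ℂ) • φ - D.NE φ) := by
      rw [neg_smul, one_smul]
      abel
    rw [h2, h1, neg_neg]

end Dat

end Pool.Agent.LibHelper41.Weld
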