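import Pool.Agent.Lib_helper41.Weld.Op

set_option autoImplicit false

namespace Pool.Agent.LibHelper41.Weld

open MeasureTheory Metric Set Filter Topology Complex
open scoped ContDiff ComplexConjugate Real

/-- `Θ` is, near `z`, a holomorphic function of a homeomorphic coordinate -/
def Loc (Θ : ℂ → ℂ) (z : ℂ) : Prop :=
  ∃ (e : ℂ ≃ₜ ℂ) (Ψ : ℂ → ℂ), AnalyticAt ℂ Ψ (e z) ∧ Θ =ᶠ[𝓝 z] fun x => Ψ (e x)

variable {Θ : ℂ → ℂ} {z : ℂ}

theorem Loc.of_analyticAt (h : AnalyticAt ℂ Θ z) : Loc Θ z :=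
  ⟨Homeomorph.refl ℂ, Θ, h, EventuallyEq.rfl⟩

theorem Loc.continuousAt (h : Loc Θ z) : ContinuousAt Θ z := by
  obtain ⟨e, Ψ, hΨ, he⟩ := h
  have h1 : ContinuousAt (fun x => Ψ (e x)) z :=
    ContinuousAt.comp (f := e) (g := Ψ) hΨ.continuousAt e.continuous.continuousAt
  exact h1.congr he.symm

theorem Loc.const_of_max (h : Loc Θ z) (hm : IsLocalMax (fun x => ‖Θ x‖) z) :
    ∀ᶠ x in 𝓝 z, Θ x = Θ z := by
  obtain ⟨e, Ψ, hΨ, he⟩ := h
  have hz : Θ z = Ψ (e z) := he.self_of_nhds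
  have h1 : IsLocalMax (norm ∘ Ψ) (e z) := by
    have h2 : ∀ᶠ x in 𝓝 z, ‖Ψ (e x)‖ ≤ ‖Ψ (e z)‖ := by
      filter_upwards [hm, he] with x hx1 hx2
      rw [← hx2, ← hz]
      exact hx1
    have h3 : ∀ᶠ w in map e (𝓝 z), ‖Ψ w‖ ≤ ‖Ψ (e z)‖ := eventually_map.2 h2
    rw [e.map_nhds_eq] at h3
    exact h3
  have h4 := Complex.eventually_eq_of_isLocalMax_norm
    (hΨ.eventually_analyticAt.mono fun w hw => hw.differentiableAt) h1
  have h5 : ∀ᶠ x in 𝓝 z, Ψ (e x) = Ψ (e z) := (e.continuous.tendsto z).eventually h4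
  filter_upwards [h5, he] with x h6 h7
  rw [h7, h6, hz]

theorem liouville (h : ∀ z, Loc Θ z) (h0 : Tendsto Θ (cocompact ℂ) (𝓝 0)) : ∀ z, Θ z = 0 := by
  have hc : Continuous Θ := continuous_iff_continuousAt.2 fun z => (h z).continuousAt
  intro z₁
  by_contra hne
  have hpos : 0 < ‖Θ z₁‖ := norm_pos_iff.2 hne
  have hev : ∀ᶠ x in cocompact ℂ, ‖Θ x‖ ≤ ‖Θ z₁‖ := by
    have h1 : Tendsto (fun x => ‖Θ x‖) (cocompact ℂ) (𝓝 0) := by
      have := h0.norm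
      rwa [norm_zero] at this
    exact (h1.eventually (gt_mem_nhds hpos)).mono fun x hx => hx.le
  obtain ⟨z₀, hz₀⟩ := hc.norm.exists_forall_ge' z₁ hev
  have hcl : IsClosed {z | Θ z = Θ z₀} := isClosed_eq hc continuous_const
  have hop : IsOpen {z | Θ z = Θ z₀} := by
    rw [isOpen_iff_mem_nhds]
    intro z hz
    have hz' : Θ z = Θ z₀ := hz
    have hm : IsLocalMax (fun x => ‖Θ x‖) z := Eventually.of_forall fun x => by
      simp only [hz']
      exact hz₀ x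
    filter_upwards [(h z).const_of_max hm] with x hx
    rw [hx, hz']
  have huniv := IsClopen.eq_univ ⟨hcl, hop⟩ ⟨z₀, rfl⟩
  have hconst : Θ = fun _ => Θ z₀ := by
    ext z
    exact (huniv ▸ mem_univ z : z ∈ {z | Θ z = Θ z₀})
  rw [hconst] at h0
  have h2 : Θ z₀ = 0 := tendsto_nhds_unique tendsto_const_nhds h0
  have h3 := hz₀ z₁
  rw [h2, norm_zero] at h3
  linarith

theorem uniq_cont (h : ∀ z, Loc Θ z) {p : ℂ} (h0 : ∀ᶠ x in 𝓝 p, Θ x = 0) : ∀ z, Θ z = 0 := by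
  set Z : Set ℂ := {z | ∀ᶠ x in 𝓝 z, Θ x = 0} with hZ
  have hop : IsOpen Z := by
    rw [isOpen_iff_mem_nhds]
    intro z hz
    exact eventually_eventually_nhds.2 hz
  have hcl : IsClosed Z := by
    rw [← closure_subset_iff_isClosed]
    intro z hz
    rw [mem_closure_iff_frequently] at hz
    obtain ⟨e, Ψ, hΨ, he⟩ := h z
    rcases hΨ.eventually_eq_zero_or_eventually_ne_zero with h1 | h1
    · have h5 : ∀ᶠ x in 𝓝 z, Ψ (e x) = 0 := (e.continuous.tendsto z).eventually h1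
      change ∀ᶠ x in 𝓝 z, Θ x = 0
      filter_upwards [h5, he] with x h6 h7
      rw [h7, h6]
    · rw [eventually_nhdsWithin_iff] at h1
      have h5 : ∀ᶠ x in 𝓝 z, e x ∈ ({e z}ᶜ : Set ℂ) → Ψ (e x) ≠ 0 :=
        (e.continuous.tendsto z).eventually h1
      obtain ⟨x, hx1, hx2, hx3⟩ := (hz.and_eventually (h5.and he)).exists
      by_cases hxz : x = z
      · rw [← hxz]
        exact hx1
      · exfalso
        refine hx2 (fun hcon => hxz (e.injective hcon)) ?_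
        have hx4 : Θ x = Ψ (e x) := hx3
        rw [← hx4]
        exact hx1.self_of_nhds
  have huniv := IsClopen.eq_univ ⟨hcl, hop⟩ ⟨p, h0⟩
  intro z
  have : z ∈ Z := huniv ▸ mem_univ z
  exact this.self_of_nhds

theorem Loc.nhds_le (h : Loc Θ z) (hnc : ¬ ∀ᶠ x in 𝓝 z, Θ x = Θ z) :
    𝓝 (Θ z) ≤ map Θ (𝓝 z) := by
  obtain ⟨e, Ψ, hΨ, he⟩ := h
  have hz : Θ z = Ψ (e z) := he.self_of_nhds
  rcases hΨ.eventually_constant_or_nhds_le_map_nhds with h1 | h1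
  · exfalso
    apply hnc
    have h5 : ∀ᶠ x in 𝓝 z, Ψ (e x) = Ψ (e z) := (e.continuous.tendsto z).eventually h1
    filter_upwards [h5, he] with x h6 h7
    rw [h7, h6, hz]
  · rw [hz, map_congr he]
    refine h1.trans ?_
    rw [← e.map_nhds_eq, map_map]
    exact le_rfl

end Pool.Agent.LibHelper41.Weld
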