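import Pool.Agent.Lib_helper41.Weld.Glob
import Pool.Agent.Lib_helper41.Remov.ConfLocal

set_option autoImplicit false

namespace Pool.Agent.LibHelper41.Weld

open MeasureTheory Metric Set Filter Topology Complex
open Pool.Agent.LibHelper41 Pool.Agent.LibHelper41.Remov

/-- the set where `f` is not holomorphic -/
def NH (f : ℂ → ℂ) : Set ℂ := {z | ¬ AnalyticAt ℂ f z}

theorem NH_closed (f : ℂ → ℂ) : IsClosed (NH f) := (isOpen_analyticAt ℂ f).isClosed_compl

theorem diff_of_not_NH {f : ℂ → ℂ} {U : Set ℂ} (h : ∀ z ∈ U, z ∉ NH f) : DifferentiableOn ℂ f U :=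
  fun z hz => (not_not.1 (h z hz)).differentiableAt.differentiableWithinAt

theorem not_NH_of_diff {f : ℂ → ℂ} {U : Set ℂ} (hU : IsOpen U) (h : DifferentiableOn ℂ f U) {z : ℂ}
    (hz : z ∈ U) : z ∉ NH f := fun hcon => hcon (h.analyticOnNhd hU z hz)

theorem NH_perfect {f : ℂ → ℂ} (hf : Continuous f) : Perfect (NH f) := by
  refine ⟨NH_closed f, fun x hx => ?_⟩
  by_contra hacc
  rw [accPt_iff_frequently_nhdsNE, not_frequently] at hacc
  rw [eventually_nhdsWithin_iff, Metric.eventually_nhds_iff_ball] at hacc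
  obtain ⟨ε, hε, h1⟩ := hacc
  have h2 : DifferentiableOn ℂ f (ball x ε \ {x}) := diff_of_not_NH fun z hz => h1 z hz.1 hz.2
  have h3 : DifferentiableOn ℂ f (ball x ε) :=
    (Complex.differentiableOn_compl_singleton_and_continuousAt_iff (ball_mem_nhds x hε)).1
      ⟨h2, hf.continuousAt⟩
  exact not_NH_of_diff isOpen_ball h3 (mem_ball_self hε) hx

/-- The non-holomorphy set is nowhere locally totally disconnected. -/
theorem NH_not_td {f : ℂ ≃ₜ ℂ} {E : Set ℂ} (hNE : NH f ⊆ E)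
    (hcan : ∀ K : Set ℂ, K ⊆ E → K.Nonempty → IsCompact K → Perfect K →
        IsTotallyDisconnected K →
        ∀ f : ℂ ≃ₜ ℂ, DifferentiableOn ℂ (⇑f) Kᶜ → Differentiable ℂ (⇑f))
    {y : ℂ} (hy : y ∈ NH f) {V : Set ℂ} (hV : IsOpen V) (hyV : y ∈ V) :
    ¬ IsTotallyDisconnected (NH f ∩ V) := by
  intro htd
  obtain ⟨ε₀, hε₀, hεV⟩ := Metric.isOpen_iff.1 hV y hyV
  set ε := ε₀ / 2 with hε
  have hεpos : 0 < ε := by positivity
  have hcb : closedBall y ε ⊆ V := (closedBall_subset_ball (by rw [hε]; linarith)).trans hεV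
  set Y : Set ℂ := NH f ∩ closedBall y ε with hY
  have hYc : IsCompact Y := (isCompact_closedBall y ε).inter_left (NH_closed f)
  have hYtd : IsTotallyDisconnected Y := by
    intro t ht1 ht2
    exact htd t (ht1.trans (inter_subset_inter_right _ hcb)) ht2
  have : CompactSpace Y := isCompact_iff_compactSpace.1 hYc
  have : TotallyDisconnectedSpace Y := (totallyDisconnectedSpace_subtype_iff).2 hYtd
  have hyY : y ∈ Y := ⟨hy, mem_closedBall_self hεpos.le⟩
  obtain ⟨C, hC, hyC, hCU⟩ := compact_exists_isClopen_in_isOpen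
    (x := (⟨y, hyY⟩ : Y)) (U := (Subtype.val : Y → ℂ) ⁻¹' ball y ε)
    (isOpen_ball.preimage continuous_subtype_val) (mem_ball_self hεpos)
  obtain ⟨O, hO, hOC⟩ := isOpen_induced_iff.1 hC.isOpen
  set K' : Set ℂ := Subtype.val '' C with hK'
  have hK'c : IsCompact K' := (hC.isClosed.isCompact).image continuous_subtype_val
  have hK'eq : K' = (O ∩ ball y ε) ∩ NH f := by
    ext z
    constructor
    · rintro ⟨w, hw, rfl⟩
      refine ⟨⟨?_, hCU hw⟩, w.2.1⟩
      rw [← hOC] at hw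
      exact hw
    · rintro ⟨⟨h1, h2⟩, h3⟩
      refine ⟨⟨z, h3, ball_subset_closedBall h2⟩, ?_, rfl⟩
      rw [← hOC]
      exact h1
  have hK'N : K' ⊆ NH f := by rw [hK'eq]; exact inter_subset_right
  have hK'Y : K' ⊆ Y := by
    rintro z ⟨w, -, rfl⟩
    exact w.2
  have hK'p : Perfect K' := by
    refine ⟨hK'c.isClosed, ?_⟩
    rw [hK'eq]
    exact (NH_perfect f.continuous).acc.open_inter (hO.inter isOpen_ball)
  have hK'td : IsTotallyDisconnected K' := fun t ht1 ht2 => hYtd t (ht1.trans hK'Y) ht2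
  have hyK' : y ∈ K' := ⟨⟨y, hyY⟩, hyC, rfl⟩
  have hrem := hcan K' (hK'N.trans hNE) ⟨y, hyK'⟩ hK'c hK'p hK'td
  set G : Set ℂ := (NH f \ (O ∩ ball y ε))ᶜ with hG
  have hGo : IsOpen G := ((NH_closed f).sdiff (hO.inter isOpen_ball)).isOpen_compl
  have hK'G : K' ⊆ G := by
    intro z hz hcon
    rw [hK'eq] at hz
    exact hcon.2 hz.1
  have hfG : DifferentiableOn ℂ f (G \ K') := by
    refine diff_of_not_NH fun z hz hzN => ?_
    by_cases h1 : z ∈ O ∩ ball y ε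
    · exact hz.2 (by rw [hK'eq]; exact ⟨h1, hzN⟩)
    · exact hz.1 ⟨hzN, h1⟩
  have hres := localise f hK'c hGo hK'G hfG hrem
  exact not_NH_of_diff hGo hres (hK'G hyK') hy

/-- A set is thick if near each of its points it contains arcs of infinitely many of the boundary
circles. -/
def Thick (Ω N : Set ℂ) : Prop :=
  ∀ x ∈ N, ∀ U : Set ℂ, IsOpen U → x ∈ U →
    {B : Set ℂ | B ∈ Balls Ω ∧ ¬ IsTotallyDisconnected (N ∩ B ∩ U)}.Infinite

theorem NH_thick {Ω : Set ℂ} (hΩ : IsOpen Ω)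
    (hc : ∀ x ∈ Ωᶜ, connectedComponentIn Ωᶜ x = {x} ∨
        ∃ c : ℂ, ∃ r : ℝ, 0 < r ∧ connectedComponentIn Ωᶜ x = closedBall c r)
    (hcan : ∀ K : Set ℂ, K ⊆ frontier Ω → K.Nonempty → IsCompact K → Perfect K →
        IsTotallyDisconnected K →
        ∀ f : ℂ ≃ₜ ℂ, DifferentiableOn ℂ (⇑f) Kᶜ → Differentiable ℂ (⇑f))
    {f : ℂ ≃ₜ ℂ} (hf : DifferentiableOn ℂ f (frontier Ω)ᶜ) : Thick Ω (NH f) := by
  have hNf : NH f ⊆ frontier Ω := by
    intro z hz
    by_contra hcon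
    exact not_NH_of_diff isClosed_frontier.isOpen_compl hf hcon hz
  have hfc : frontier Ω ⊆ Ωᶜ := fun x hx hxΩ => by
    rw [hΩ.frontier_eq] at hx
    exact hx.2 hxΩ
  intro x hx U hU hxU hfin
  set 𝓑 : Set (Set ℂ) := {B : Set ℂ | B ∈ Balls Ω ∧ ¬ IsTotallyDisconnected (NH f ∩ B ∩ U)} with h𝓑
  have hclB : ∀ B ∈ 𝓑, IsClosed B := by
    rintro B ⟨⟨_, _, _, c, r, _, rfl⟩, _⟩
    exact isClosed_closedBall
  -- every point of the non-holomorphy set in `U` is in one of the finitely many discs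
  have hcov : ∀ y ∈ NH f ∩ U, ∃ B ∈ 𝓑, y ∈ B := by
    rintro y ⟨hyN, hyU⟩
    by_contra hcon
    have hcon' : ∀ B ∈ 𝓑, y ∉ B := fun B hB hyB => hcon ⟨B, hB, hyB⟩
    have hcl : IsClosed (⋃ B ∈ 𝓑, B) := hfin.isClosed_biUnion hclB
    have hVo : IsOpen (U \ ⋃ B ∈ 𝓑, B) := hU.sdiff hcl
    have hyV : y ∈ U \ ⋃ B ∈ 𝓑, B := by
      refine ⟨hyU, ?_⟩
      simp only [mem_iUnion, not_exists]
      exact hcon'
    refine NH_not_td hNf hcan hyN hVo hyV ?_
    intro t ht1 ht2 a ha b hb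
    have haΩ : a ∈ Ωᶜ := hfc (hNf (ht1 ha).1)
    have ht3 : t ⊆ connectedComponentIn Ωᶜ a :=
      ht2.subset_connectedComponentIn ha (ht1.trans (inter_subset_left.trans (hNf.trans hfc)))
    rcases hc a haΩ with h | ⟨c, r, hr, h⟩
    · have h1 := ht3 hb
      rw [h] at h1
      exact h1.symm
    · have hB : connectedComponentIn Ωᶜ a ∈ Balls Ω := ⟨a, haΩ, rfl, c, r, hr, h⟩
      have haB : a ∈ connectedComponentIn Ωᶜ a := mem_connectedComponentIn haΩ
      have hnot : connectedComponentIn Ωᶜ a ∉ 𝓑 := by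
        intro hmem
        refine (ht1 ha).2.2 ?_
        simp only [mem_iUnion]
        exact ⟨_, hmem, haB⟩
      have htd : IsTotallyDisconnected (NH f ∩ connectedComponentIn Ωᶜ a ∩ U) := by
        by_contra h2
        exact hnot ⟨hB, h2⟩
      exact htd t (fun w hw => ⟨⟨(ht1 hw).1, ht3 hw⟩, (ht1 hw).2.1⟩) ht2 ha hb
  obtain ⟨B₀, hB₀, hxB₀⟩ := hcov x ⟨hx, hxU⟩
  -- distinct discs are disjoint
  have hdisj : ∀ B ∈ Balls Ω, ∀ B' ∈ Balls Ω, ∀ z, z ∈ B → z ∈ B' → B = B' := by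
    rintro B ⟨p, hp, hpB, -⟩ B' ⟨q, hq, hqB, -⟩ z hz hz'
    rw [← hpB] at hz
    rw [← hqB] at hz'
    rw [← hpB, ← hqB, connectedComponentIn_eq hz, connectedComponentIn_eq hz']
  have hfin' : (𝓑 \ {B₀}).Finite := hfin.subset sdiff_subset
  have hcl' : IsClosed (⋃ B ∈ 𝓑 \ {B₀}, B) := hfin'.isClosed_biUnion fun B hB => hclB B hB.1
  set V : Set ℂ := U \ ⋃ B ∈ 𝓑 \ {B₀}, B with hV
  have hVo : IsOpen V := hU.sdiff hcl'
  have hxV : x ∈ V := by
    refine ⟨hxU, ?_⟩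
    simp only [mem_iUnion, not_exists]
    intro B hB hxB
    exact hB.2 (hdisj B hB.1.1 B₀ hB₀.1 x hxB hxB₀)
  have hNV : NH f ∩ V ⊆ B₀ := by
    rintro z ⟨hzN, hzV⟩
    obtain ⟨B, hB, hzB⟩ := hcov z ⟨hzN, hzV.1⟩
    by_cases hBB : B = B₀
    · rw [← hBB]
      exact hzB
    · exfalso
      refine hzV.2 ?_
      simp only [mem_iUnion]
      exact ⟨B, ⟨hB, hBB⟩, hzB⟩
  obtain ⟨⟨p, hp, hpB, c, r, hr, hBeq⟩, -⟩ := hB₀
  have hballΩ : ball c r ⊆ Ωᶜ := by
    refine ball_subset_closedBall.trans ?_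
    rw [← hBeq, ← hpB]
    exact connectedComponentIn_subset _ _
  have hNsph : NH f ∩ V ⊆ sphere c r := by
    intro z hz
    have h1 := hNV hz
    rw [hBeq] at h1
    have h2 : z ∉ ball c r := by
      intro hzb
      obtain ⟨w, hw1, hw2⟩ := mem_closure_iff.1 (frontier_subset_closure (hNf hz.1)) _ isOpen_ball hzb
      exact hballΩ hw1 hw2
    rw [mem_ball, not_lt] at h2
    exact le_antisymm h1 h2
  obtain ⟨s1, s2, s3⟩ := sphere_rem c hr
  have hfV : DifferentiableOn ℂ f (V \ sphere c r) :=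
    diff_of_not_NH fun z hz hzN => hz.2 (hNsph ⟨hzN, hz.1⟩)
  have hres := conf_local s1 s2 s3 hVo f hfV
  exact not_NH_of_diff hVo hres hxV hx

/-- main theorem, in terms of `Rem` -/
theorem main_thick {Ω : Set ℂ} (hΩ : IsOpen Ω)
    (hc : ∀ x ∈ Ωᶜ, connectedComponentIn Ωᶜ x = {x} ∨
        ∃ c : ℂ, ∃ r : ℝ, 0 < r ∧ connectedComponentIn Ωᶜ x = closedBall c r)
    (hcan : ∀ K : Set ℂ, K ⊆ frontier Ω → K.Nonempty → IsCompact K → Perfect K →
        IsTotallyDisconnected K →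
        ∀ f : ℂ ≃ₜ ℂ, DifferentiableOn ℂ (⇑f) Kᶜ → Differentiable ℂ (⇑f))
    (hthick : ∀ N : Set ℂ, N ⊆ frontier Ω → IsClosed N → N.Nonempty → Thick Ω N →
      ∃ U : Set ℂ, IsOpen U ∧ (N ∩ U).Nonempty ∧ ∀ K : Set ℂ, K ⊆ N ∩ U → K.Nonempty →
        IsCompact K → Perfect K → IsTotallyDisconnected K →
        (∀ x ∈ K, connectedComponentIn Ωᶜ x = {x}) → Rem K)
    (f : ℂ ≃ₜ ℂ) (hf : DifferentiableOn ℂ f (frontier Ω)ᶜ) : Differentiable ℂ f := by
  have hNf : NH f ⊆ frontier Ω := by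
    intro z hz
    by_contra hcon
    exact not_NH_of_diff isClosed_frontier.isOpen_compl hf hcon hz
  have hfc : frontier Ω ⊆ Ωᶜ := fun x hx hxΩ => by
    rw [hΩ.frontier_eq] at hx
    exact hx.2 hxΩ
  rcases (NH f).eq_empty_or_nonempty with hN | hN
  · intro z
    have h1 : z ∉ NH f := by rw [hN]; exact notMem_empty z
    exact (not_not.1 h1).differentiableAt
  · exfalso
    obtain ⟨U, hU, ⟨y, hyN, hyU⟩, hrem⟩ := hthick (NH f) hNf (NH_closed f) hN
      (NH_thick hΩ hc hcan hf)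
    obtain ⟨ε₀, hε₀, hεU⟩ := Metric.isOpen_iff.1 hU y hyU
    have hcb : closedBall y (ε₀ / 2) ⊆ U := (closedBall_subset_ball (by linarith)).trans hεU
    set E : Set ℂ := NH f ∩ closedBall y (ε₀ / 2) with hE
    have hEc : IsCompact E := (isCompact_closedBall _ _).inter_left (NH_closed f)
    obtain ⟨hE0, hER⟩ := circle_rem_sub hΩ hEc (inter_subset_left.trans hNf) hc
      fun K hKE h1 h2 h3 h4 h5 => hrem K (hKE.trans (inter_subset_inter_right _ hcb)) h1 h2 h3 h4 h5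
    have hd : DifferentiableOn ℂ f (ball y (ε₀ / 2) \ E) :=
      diff_of_not_NH fun z hz hzN => hz.2 ⟨hzN, ball_subset_closedBall hz.1⟩
    have hres := conf_local hEc hE0 hER isOpen_ball f hd
    exact not_NH_of_diff isOpen_ball hres (mem_ball_self (half_pos hε₀)) hyN

end Pool.Agent.LibHelper41.Weld
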